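import Mathlib
import Pool.Agent.TH41.BL.Stm3
import Pool.Agent.TH41.BL.Stm4

/-!
H2xSE (helper2, MP_0430e4_lc): subexponentially many rounds of conditioning do not improve the
exponent of Delsarte's linear program.  Statements of the pieces.
-/

set_option autoImplicit false

open MeasureTheory Filter Topology

namespace Pool.Agent.H2xSE

open Pool.Agent.TH41.BL

/-- P1 (`theorem low3 (hb : S3_pb) : S3_low`, file `H2xSE/Low3.lean`; mirror of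
`TH41/BL/TR3.lean`, `TR3f.trans3`): the test function `vN` is never smaller than
`- exp (- ε₁ n)`.

Proof. Use the lemmas of `TR3.lean` (`Y3_upper`, `Y3_phase`, `shift`, `J3_outer`, `J3_cont`, `J3_mid`,
`Cn`, `PB_mono`, ...) with the same `κ`, `r = √(1/(n ε))` and `SW = TRMf.SW`.
(0) `vN_SW` from below: `(SW.re - 7/(1-cos(1/1000)) exp(...)) / (2 π) ≤ (vN ..).re`.
(1) If `w < n ((Nf m (r/5)).re - ε exp (-r/5))`: the mirror of `caseB` gives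
`‖SW (Y3 m n ε) (1/1000) (-(9/10 r)) w‖ ≤ 101/100 * (1823/1000) * (1003/1000) * (2533/1000) / (9/10)`
(now `‖Hf (-(9/10 r))‖ ≤ 1003/1000`), and by the second half of `shift`
`SW c = 2 π + SW (-(9/10 r)) + error`, so `Re vN ≥ 0`.
(2) If `n ((Nf m (r/5)).re - ε exp (-r/5)) ≤ w ≤ (NR m 0 - ε + ε κ/2) n`: by the intermediate value
theorem there is `σ` in `[r/5, κ]` with `n ((Nf m σ).re - ε exp (-σ)) = w`, and `(SW σ).re ≥ 0` by the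
mirror of `TRMf.pos_seg` (apply `pos_seg` to `Y' s = Y (-s)`, `-σ`, `-ρ`: `SW Y' T (-σ) (-ρ) =
- SW Y T σ ρ` by `t → -t`); then the first half of `shift`.
(3) If `w > (NR m 0 - ε + ε κ/2) n`: `seg_bound` at `σ₁ = κ/4`:
`‖Y3 σ₁‖ exp (-σ₁ w) ≤ 2 exp (n (C σ₁^3 + ε σ₁^2/2 - σ₁ ε κ/2)) ≤ 2 exp (- n ε σ₁^2)`; then the
first half of `shift`. -/
def S3_low : Prop := ∀ m ε : ℝ, 0 < m → 0 < ε → ε ≤ 1 →
  ∃ c₀ : ℝ, 0 < c₀ ∧ ∀ c : ℝ, 0 < c → c ≤ c₀ →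
  ∃ ε₁ : ℝ, 0 < ε₁ ∧ ∃ n₀ : ℕ, ∀ n w : ℕ, n₀ ≤ n → w ≤ n → Qz m n →
    -Real.exp (-ε₁ * n) ≤ (vN m n w ε c 0).re

/-- P2: the test function `v4` with the sign `1` stays between `0` and `1`, up to exponentially small
errors. -/
def S4_vu : Prop := ∀ m : ℝ, 0 < m → ∀ ε η : ℝ, 0 < ε → ε ≤ 1 → 0 ≤ η → η ≤ 1 →
  ∃ ε₁ : ℝ, 0 < ε₁ ∧ ∃ n₀ : ℕ, ∀ n : ℕ, n₀ ≤ n → Qz4 m n 1 →
  ∀ w : ℕ, w ≤ n →
    -Real.exp (-ε₁ * n) ≤ (v4 m n w 1 ε η 0).re ∧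
    (v4 m n w 1 ε η 0).re ≤ 1 + Real.exp (-ε₁ * n)

end Pool.Agent.H2xSE
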