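import Mathlib
import Pool.Agent.H2xSE.Stm
import Pool.Agent.Y570.KP.Star

/-!
H2xSE (helper2, MP_0430e4_lc): the primal inequality for Delsarte's linear program with a constant
exponentially close to one.
-/

set_option autoImplicit false

open MeasureTheory Filter Topology

namespace Pool.Agent.H2xSE

open Pool.Agent.TH41.BL Pool.Agent.Y570.KP

/-- the comparison of the sums -/
lemma compare5 (m d : ℕ) (C v f : ℕ → ℝ) (near : ℕ → Prop) [DecidablePred near] (x c τ : ℝ)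
    (hC : ∀ w, 0 ≤ C w) (hx : 0 ≤ x) (hc : 0 ≤ c)
    (h1 : ∀ w ∈ Finset.range m, w < d → |1 - v w| ≤ x)
    (h2 : ∀ w ∈ Finset.range m, w < d → near w)
    (h3 : ∀ w ∈ Finset.range m, near w → v w ≤ 1 + x)
    (h4 : ∀ w ∈ Finset.range m, ¬ near w → v w ≤ 1 - c)
    (h5 : ∀ w ∈ Finset.range m, -τ ≤ v w) :
    ∑ w ∈ Finset.range m, C w * (1 - v w) * f w ≤
      x * ∑ w ∈ (Finset.range m).filter near, C w * |f w| -
        c * ∑ w ∈ (Finset.range m).filter (fun w => ¬ near w), C w * |f w| +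
        (1 + τ + c) * ∑ w ∈ (Finset.range m).filter (fun w => d ≤ w), C w * max (f w) 0 := by
  classical
  rw [Finset.sum_filter, Finset.sum_filter, Finset.sum_filter, Finset.mul_sum, Finset.mul_sum,
    Finset.mul_sum, ← Finset.sum_sub_distrib, ← Finset.sum_add_distrib]
  refine Finset.sum_le_sum fun w hw => ?_
  have hCw := hC w
  have hab := abs_nonneg (f w)
  have hCf : 0 ≤ C w * |f w| := mul_nonneg hCw hab
  have hv5 := h5 w hw
  by_cases hd : d ≤ w
  · rw [if_pos hd]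
    by_cases hb : near w
    · rw [if_pos hb, if_neg (not_not.2 hb)]
      have hv := h3 w hw hb
      rcases le_total (f w) 0 with hf | hf
      · rw [abs_of_nonpos hf, max_eq_right hf]
        have e1 : 0 ≤ (1 - v w + x) * (C w * (-f w)) :=
          mul_nonneg (by linarith) (mul_nonneg hCw (by linarith))
        nlinarith
      · rw [abs_of_nonneg hf, max_eq_left hf]
        have e2 : 0 ≤ C w * f w := mul_nonneg hCw hf
        have e1 : 0 ≤ (τ + v w) * (C w * f w) := mul_nonneg (by linarith) e2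
        have e3 : 0 ≤ (x + c) * (C w * f w) := mul_nonneg (by linarith) e2
        nlinarith
    · rw [if_neg hb, if_pos hb]
      have hv := h4 w hw hb
      rcases le_total (f w) 0 with hf | hf
      · rw [abs_of_nonpos hf, max_eq_right hf]
        have e1 : 0 ≤ (1 - v w - c) * (C w * (-f w)) :=
          mul_nonneg (by linarith) (mul_nonneg hCw (by linarith))
        nlinarith
      · rw [abs_of_nonneg hf, max_eq_left hf]
        have e2 : 0 ≤ C w * f w := mul_nonneg hCw hf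
        have e1 : 0 ≤ (τ + v w) * (C w * f w) := mul_nonneg (by linarith) e2
        nlinarith
  · have hd' : w < d := not_le.1 hd
    rw [if_neg hd]
    have hb := h2 w hw hd'
    rw [if_pos hb, if_neg (not_not.2 hb)]
    have hv := h1 w hw hd'
    have e1 : C w * (1 - v w) * f w ≤ |C w * (1 - v w) * f w| := le_abs_self _
    rw [abs_mul, abs_mul, abs_of_nonneg hCw] at e1
    have e2 : |1 - v w| * (C w * |f w|) ≤ x * (C w * |f w|) :=
      mul_le_mul_of_nonneg_right hv hCf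
    nlinarith

/-- the primal inequality from a test function -/
theorem star_of (hk : S_kra) (n d : ℕ) (near : ℕ → Prop) [DecidablePred near] (v : ℕ → ℝ)
    (x c τ E2 E3 E7 : ℝ) (hx : 0 ≤ x) (hx1 : x ≤ 1) (hc : 0 ≤ c) (hτ : 0 ≤ τ) (hE3 : 0 ≤ E3)
    (hxc : x * E2 ≤ c)
    (h1 : ∀ w ∈ Finset.range (n + 1), w < d → |1 - v w| ≤ x)
    (h2 : ∀ w ∈ Finset.range (n + 1), w < d → near w)
    (h3 : ∀ w ∈ Finset.range (n + 1), near w → v w ≤ 1 + x)
    (h4 : ∀ w ∈ Finset.range (n + 1), ¬ near w → v w ≤ 1 - c)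
    (h5 : ∀ w ∈ Finset.range (n + 1), -τ ≤ v w)
    (hdual : ∀ f : ℕ → ℝ, |∑ w ∈ Finset.range (n + 1), (n.choose w : ℝ) * v w * f w| ≤
      E7 * NN n f)
    (hnear : ∀ f : ℕ → ℝ, ∑ w ∈ (Finset.range (n + 1)).filter near, (n.choose w : ℝ) * |f w| ≤
      E2 * ∑ w ∈ (Finset.range (n + 1)).filter (fun w => ¬ near w), (n.choose w : ℝ) * |f w| +
        E3 * NN n f) :
    StarAt n d (1 + τ + c) ((E7 + E3) * √2 ^ n) := by
  intro l
  obtain ⟨f, hf⟩ : ∃ f : ℕ → ℝ, f = fun w => ∑ i ∈ Finset.range (n + 1), l i * (kr n i w : ℝ) :=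
    ⟨_, rfl⟩
  obtain ⟨-, hk2, hk3, -, -⟩ := hk
  have htr : ∀ j, j ≤ n → tr n f j = √2 ^ n * l j := by
    intro j hj
    rw [hf]
    exact hk2 n l j hj
  have hs2 : (0 : ℝ) < √2 ^ n := by positivity
  have hs22 : (√2 : ℝ) ^ n * √2 ^ n = 2 ^ n := by
    rw [← mul_pow, Real.mul_self_sqrt (by norm_num)]
  have hsum : ∑ w ∈ Finset.range (n + 1), (n.choose w : ℝ) * f w = 2 ^ n * l 0 := by
    have e1 := htr 0 (Nat.zero_le n)
    unfold tr at e1
    have e2 : ∑ w ∈ Finset.range (n + 1), f w * (kr n w 0 : ℝ) = √2 ^ n * (√2 ^ n * l 0) := by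
      rw [← e1, ← mul_assoc, mul_inv_cancel₀ hs2.ne', one_mul]
    rw [← mul_assoc, hs22] at e2
    rw [← e2]
    refine Finset.sum_congr rfl fun w _ => ?_
    rw [hk3]
    push_cast
    ring
  have hNN : NN n f = √2 ^ n * ∑ j ∈ Finset.range (n + 1), (n.choose j : ℝ) * |l j| := by
    unfold NN
    rw [Finset.mul_sum]
    refine Finset.sum_congr rfl fun j hj => ?_
    have hj' : j ≤ n := by
      have := Finset.mem_range.1 hj
      omega
    rw [htr j hj', abs_mul, abs_of_pos hs2]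
    ring
  have hNN0 : 0 ≤ NN n f := by
    unfold NN
    exact Finset.sum_nonneg fun j _ => mul_nonneg (Nat.cast_nonneg _) (abs_nonneg _)
  have hsplit : ∑ w ∈ Finset.range (n + 1), (n.choose w : ℝ) * (1 - v w) * f w =
      2 ^ n * l 0 - ∑ w ∈ Finset.range (n + 1), (n.choose w : ℝ) * v w * f w := by
    rw [← hsum, ← Finset.sum_sub_distrib]
    refine Finset.sum_congr rfl fun w _ => ?_
    ring
  have hcmp := compare5 (n + 1) d (fun w => (n.choose w : ℝ)) v f near x c τ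
    (fun w => Nat.cast_nonneg _) hx hc h1 h2 h3 h4 h5
  have hd := (le_abs_self _).trans (hdual f)
  have hn := hnear f
  rw [hsplit] at hcmp
  obtain ⟨Ne, hNe⟩ : ∃ Ne : ℝ, Ne = ∑ w ∈ (Finset.range (n + 1)).filter near,
    (n.choose w : ℝ) * |f w| := ⟨_, rfl⟩
  obtain ⟨Fa, hFa⟩ : ∃ Fa : ℝ, Fa = ∑ w ∈ (Finset.range (n + 1)).filter
    (fun w : ℕ => ¬ near w), (n.choose w : ℝ) * |f w| := ⟨_, rfl⟩
  obtain ⟨P, hP⟩ : ∃ P : ℝ, P = ∑ w ∈ (Finset.range (n + 1)).filter (fun w => d ≤ w),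
    (n.choose w : ℝ) * max (f w) 0 := ⟨_, rfl⟩
  have hFa0 : 0 ≤ Fa := by
    rw [hFa]
    exact Finset.sum_nonneg fun j _ => mul_nonneg (Nat.cast_nonneg _) (abs_nonneg _)
  have hPe : ∑ w ∈ (Finset.range (n + 1)).filter (fun w => d ≤ w),
      (n.choose w : ℝ) * max (∑ i ∈ Finset.range (n + 1), l i * (kr n i w : ℝ)) 0 = P := by
    rw [hP, hf]
  rw [hPe]
  rw [← hNe, ← hFa] at hn hcmp
  rw [← hP] at hcmp
  have e1 : x * Ne ≤ c * Fa + E3 * NN n f := by
    have e2 := mul_le_mul_of_nonneg_left hn hx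
    have e3 : x * E2 * Fa ≤ c * Fa := mul_le_mul_of_nonneg_right hxc hFa0
    have e4 : x * (E3 * NN n f) ≤ 1 * (E3 * NN n f) :=
      mul_le_mul_of_nonneg_right hx1 (mul_nonneg hE3 hNN0)
    nlinarith
  have e5 : (E7 + E3) * √2 ^ n * ∑ j ∈ Finset.range (n + 1), (n.choose j : ℝ) * |l j| =
      E7 * NN n f + E3 * NN n f := by
    rw [hNN]
    ring
  rw [e5]
  linarith

lemma s2e (n : ℕ) : (√2 : ℝ) ^ n = Real.exp (n * (1 / 2 * Real.log 2)) := by
  have e1 : (√2 : ℝ) = Real.exp (1 / 2 * Real.log 2) := by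
    rw [Real.sqrt_eq_rpow, Real.rpow_def_of_pos (by norm_num)]
    congr 1
    ring
  rw [e1, ← Real.exp_nat_mul]

lemma StarAt.mono {n d : ℕ} {K L K' L' : ℝ} (h : StarAt n d K L) (hK : K ≤ K') (hL : L ≤ L') :
    StarAt n d K' L' := by
  intro l
  refine (h l).trans (add_le_add ?_ ?_)
  · exact mul_le_mul_of_nonneg_right hK (Finset.sum_nonneg fun w _ =>
      mul_nonneg (Nat.cast_nonneg _) (le_max_right _ _))
  · exact mul_le_mul_of_nonneg_right hL (Finset.sum_nonneg fun w _ =>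
      mul_nonneg (Nat.cast_nonneg _) (abs_nonneg _))

/-- exponentials are large -/
lemma exp_large {e B : ℝ} (he : 0 < e) : ∃ N : ℕ, ∀ n : ℕ, N ≤ n → B ≤ Real.exp (n * e) := by
  obtain ⟨N, hN⟩ := exists_nat_ge (B / e)
  refine ⟨N, fun n hn => ?_⟩
  have h1 : B / e ≤ n := hN.trans (by exact_mod_cast hn)
  rw [div_le_iff₀ he] at h1
  have h2 := Real.add_one_le_exp (n * e)
  linarith

lemma expn (a : ℝ) (n : ℕ) : Real.exp (-a * n) = Real.exp (-(n * a)) := by
  congr 1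
  ring

theorem star3p (hk : S_kra) (hp : S3_ph) (hl : S3_left) (ht : S3_trans)
    (hd : S3_dual) (hn : S3_near) (hlow : S3_low) (m δ ε' : ℝ) (hm : 0 < m) (hδ : δ < NR m 0)
    (hε' : 0 < ε') :
    ∃ κ : ℝ, 0 < κ ∧ ∃ n₀ : ℕ, ∀ n : ℕ, n₀ ≤ n → Qz m n → ∀ d : ℕ, (d : ℝ) ≤ δ * n →
      StarAt n d (1 + Real.exp (-(n * κ)))
        (Real.exp (n * (mu3 m + 1 / 2 * Real.log 2 + ε'))) := by
  have hPh0 : Ph m 0 = 0 := (hp m hm).2.1
  obtain ⟨γ, hγ⟩ : ∃ γ : ℝ, γ = NR m 0 - δ := ⟨_, rfl⟩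
  have hγ0 : 0 < γ := by rw [hγ]; linarith
  obtain ⟨ε, hε⟩ : ∃ ε : ℝ, ε = min (γ / 2) (1 / 4) := ⟨_, rfl⟩
  have hε0 : 0 < ε := by
    rw [hε]
    exact lt_min (by linarith) (by norm_num)
  have hε4 : ε ≤ 1 / 4 := by
    rw [hε]
    exact min_le_right _ _
  have hεγ : ε ≤ γ / 2 := by
    rw [hε]
    exact min_le_left _ _
  obtain ⟨D0, hD0, ct, hct0, hct⟩ := ht m ε hm hε0 (by linarith)
  obtain ⟨Δ, hΔ⟩ : ∃ Δ : ℝ, Δ = min D0 ε := ⟨_, rfl⟩
  have hΔ0 : 0 < Δ := by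
    rw [hΔ]
    exact lt_min hD0 hε0
  have hΔD : Δ ≤ D0 := by
    rw [hΔ]
    exact min_le_left _ _
  have hΔε : Δ ≤ ε := by
    rw [hΔ]
    exact min_le_right _ _
  obtain ⟨cl, hcl0, hcl⟩ := hl m ε Δ hm hε0 hΔ0
  obtain ⟨cr, hcr0, hcr⟩ := hlow m ε hm hε0 (by linarith)
  obtain ⟨cd, hcd0, hcd⟩ := hd m ε (ε' / 4) hm hε0 (by linarith)
  obtain ⟨c, hc⟩ : ∃ c : ℝ, c = min (min ct cr) (min cl cd) := ⟨_, rfl⟩
  have hc0 : 0 < c := by
    rw [hc]
    exact lt_min (lt_min hct0 hcr0) (lt_min hcl0 hcd0)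
  obtain ⟨εt, hεt, n1, h1⟩ := hct c hc0
    (by rw [hc]; exact (min_le_left _ _).trans (min_le_left _ _))
  obtain ⟨εr, hεr, n7, h7⟩ := hcr c hc0
    (by rw [hc]; exact (min_le_left _ _).trans (min_le_right _ _))
  obtain ⟨εl, hεl, n2, h2⟩ := hcl c hc0
    (by rw [hc]; exact (min_le_right _ _).trans (min_le_left _ _))
  obtain ⟨n4, h4⟩ := hcd c hc0
    (by rw [hc]; exact (min_le_right _ _).trans (min_le_right _ _))
  obtain ⟨ε1, hε1e⟩ : ∃ ε1 : ℝ, ε1 = min (min εt εl) εr := ⟨_, rfl⟩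
  have hε1 : 0 < ε1 := by
    rw [hε1e]
    exact lt_min (lt_min hεt hεl) hεr
  have hε1t : ε1 ≤ εt := by
    rw [hε1e]
    exact (min_le_left _ _).trans (min_le_left _ _)
  have hε1l : ε1 ≤ εl := by
    rw [hε1e]
    exact (min_le_left _ _).trans (min_le_right _ _)
  have hε1r : ε1 ≤ εr := by
    rw [hε1e]
    exact min_le_right _ _
  obtain ⟨n3, h3⟩ := hn m ε (ε1 / 2) (ε' / 4) hm hε0 (by linarith) (by linarith)
  obtain ⟨n5, h5⟩ := exp_large (e := ε1 / 2) (B := 6) (by linarith)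
  obtain ⟨n6, h6⟩ := exp_large (e := ε1 / 4) (B := 2) (by linarith)
  obtain ⟨n8, h8⟩ := exp_large (e := 3 / 4 * ε') (B := 2) (by linarith)
  refine ⟨ε1 / 4, by linarith, n1 + n2 + n3 + n4 + n5 + n6 + n7 + n8 + 1, ?_⟩
  intro n hnn hQz d hdn
  have hn1 : (1 : ℝ) ≤ n := by
    have : 1 ≤ n := by omega
    exact_mod_cast this
  have hnpos : (0 : ℝ) < n := by linarith
  -- the weights
  obtain ⟨v, hv⟩ : ∃ v : ℕ → ℝ, ∀ w, v w = (vN m n w ε c 0).re := ⟨_, fun _ => rfl⟩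
  obtain ⟨E7, hE7⟩ : ∃ E7 : ℝ, E7 = Real.exp (n * (mu3 m + ε' / 4)) := ⟨_, rfl⟩
  have hE70 : 0 < E7 := by
    rw [hE7]
    exact Real.exp_pos _
  have hdual : ∀ f : ℕ → ℝ, |∑ w ∈ Finset.range (n + 1), (n.choose w : ℝ) * v w * f w| ≤
      E7 * NN n f := by
    intro f
    have hre : (∑ w ∈ Finset.range (n + 1), (n.choose w : ℂ) * vN m n w ε c 0 * (f w : ℂ)).re =
        ∑ w ∈ Finset.range (n + 1), (n.choose w : ℝ) * v w * f w := by
      rw [Complex.re_sum]
      refine Finset.sum_congr rfl fun w _ => ?_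
      rw [Complex.re_mul_ofReal, ← Complex.ofReal_natCast, Complex.re_ofReal_mul, hv]
    rw [← hre, hE7]
    exact (Complex.abs_re_le_norm _).trans (h4 n (by omega) hQz 0 f)
  -- the position of the small weights
  have hsmall : ∀ w : ℕ, w < d → (w : ℝ) ≤ (NR m 0 - ε - Δ) * n := by
    intro w hw
    have e1 : (w : ℝ) ≤ δ * n := by
      have : (w : ℝ) ≤ d := by exact_mod_cast hw.le
      linarith
    have e2 : δ ≤ NR m 0 - ε - Δ := by linarith
    exact e1.trans (mul_le_mul_of_nonneg_right e2 hnpos.le)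
  have hwn : ∀ w ∈ Finset.range (n + 1), w ≤ n := fun w hw => by
    have := Finset.mem_range.1 hw
    omega
  obtain ⟨z, hz⟩ : ∃ z : ℝ, z = Real.exp (-(n * (ε1 / 2))) := ⟨_, rfl⟩
  have hz0 : 0 < z := by rw [hz]; exact Real.exp_pos _
  have hxz : Real.exp (-ε1 * n) = z * z := by
    rw [hz, ← Real.exp_add]
    congr 1
    ring
  have hz6 : z ≤ 1 / 6 := by
    have e1 := h5 n (by omega)
    rw [hz, Real.exp_neg, one_div]
    exact inv_anti₀ (by norm_num) e1
  have hexp : ∀ a : ℝ, ε1 ≤ a → Real.exp (-a * n) ≤ z * z := by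
    intro a ha
    rw [← hxz]
    exact Real.exp_le_exp.2 (mul_le_mul_of_nonneg_right (neg_le_neg ha) hnpos.le)
  have hres : ∀ w : ℕ, Complex.exp (n * Ph m (((0 : ℝ) : ℂ) * Complex.I) -
      w * (((0 : ℝ) : ℂ) * Complex.I)) = 1 := by
    intro w
    rw [Complex.ofReal_zero, zero_mul, hPh0]
    simp
  have hDD : NR m 0 - ε - D0 ≤ NR m 0 - ε - Δ := by linarith
  have a1 : ∀ w ∈ Finset.range (n + 1), (w : ℝ) ≤ (NR m 0 - ε - Δ) * n →
      |1 - v w| ≤ z * z := by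
    intro w hw hb
    have e1 := h2 n w (by omega) hQz hb 0
    rw [hres] at e1
    have e2 := (Complex.abs_re_le_norm _).trans e1
    rw [Complex.sub_re, Complex.one_re, ← hv, abs_sub_comm] at e2
    exact e2.trans (hexp εl hε1l)
  have hstar := star_of hk n d (fun w : ℕ => (w : ℝ) < (NR m 0 - ε) * n) v (z * z) z
    (z * z) (Real.exp (ε1 / 2 * n)) E7 E7 (by positivity) (by nlinarith) hz0.le (by positivity)
    hE70.le (by
      have e1 : z * Real.exp (ε1 / 2 * n) = 1 := by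
        rw [hz, ← Real.exp_add]
        rw [show -((n : ℝ) * (ε1 / 2)) + ε1 / 2 * n = 0 by ring, Real.exp_zero]
      rw [mul_assoc, e1, mul_one])
    (fun w hw hwd => a1 w hw (hsmall w hwd))
    (fun w hw hwd => by
      refine (hsmall w hwd).trans_lt ?_
      exact mul_lt_mul_of_pos_right (by linarith) hnpos)
    (fun w hw _ => by
      rcases le_or_gt (w : ℝ) ((NR m 0 - ε - Δ) * n) with hb | hb
      · have e1 := (abs_le.1 (a1 w hw hb)).1
        linarith
      · have e0 : (NR m 0 - ε - D0) * n ≤ (w : ℝ) :=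
          (mul_le_mul_of_nonneg_right hDD hnpos.le).trans hb.le
        have e1 := (h1 n w (by omega) (hwn w hw) hQz).1 e0
        have e2 := hexp εt hε1t
        rw [hv]
        linarith)
    (fun w hw hb => by
      have e1 := (h1 n w (by omega) (hwn w hw) hQz).2 (not_lt.1 hb)
      rw [hv]
      linarith)
    (fun w hw => by
      have e1 := h7 n w (by omega) (hwn w hw) hQz
      have e2 := hexp εr hε1r
      rw [hv]
      linarith)
    hdual
    (fun f => by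
      have e1 := h3 n (by omega) hQz f
      simp only [not_lt]
      rw [hE7]
      exact e1)
  refine StarAt.mono hstar ?_ ?_
  · have e1 : 2 ≤ Real.exp (n * (ε1 / 4)) := h6 n (by omega)
    have e2 : Real.exp (-(n * (ε1 / 4))) = Real.exp (n * (ε1 / 4)) * z := by
      rw [hz, ← Real.exp_add]
      congr 1
      ring
    rw [e2]
    nlinarith
  · have e2 : 2 ≤ Real.exp (n * (3 / 4 * ε')) := h8 n (by omega)
    have e1 : Real.exp (n * (mu3 m + 1 / 2 * Real.log 2 + ε')) =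
        Real.exp (n * (3 / 4 * ε')) * (E7 * √2 ^ n) := by
      rw [hE7, s2e, ← Real.exp_add, ← Real.exp_add]
      congr 1
      ring
    rw [e1]
    have e3 : 0 ≤ E7 * √2 ^ n := by positivity
    calc (E7 + E7) * √2 ^ n = 2 * (E7 * √2 ^ n) := by ring
      _ ≤ Real.exp (n * (3 / 4 * ε')) * (E7 * √2 ^ n) := mul_le_mul_of_nonneg_right e2 e3

end Pool.Agent.H2xSE
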