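import Mathlib
import Pool.Agent.H2xSE.Star5
import Pool.Agent.TH41.BL.MA4

/-!
H2xSE (helper2, MP_0430e4_lc): the primal inequality with a constant exponentially close to one, in
the second regime.
-/

set_option autoImplicit false

open MeasureTheory Filter Topology

namespace Pool.Agent.H2xSE

open Pool.Agent.TH41.BL Pool.Agent.Y570.KP

lemma qz4_even (m : ℝ) (q r j n : ℕ) (p : ℤ) (hp : Even p) (hN : Nbar m * q = p)
    (hn : n = q * r * j) : Qz4 m n 1 := by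
  refine ⟨Or.inl rfl, ?_⟩
  obtain ⟨k, hk⟩ : ∃ k : ℤ, p * (r : ℤ) * (j : ℤ) = 2 * k := by
    obtain ⟨a, ha⟩ := hp
    exact ⟨a * r * j, by rw [ha]; ring⟩
  have h1 : Real.pi * n * Nbar m = Real.pi * ((2 * k : ℤ) : ℝ) := by
    rw [← hk, hn]
    push_cast
    rw [← hN]
    ring
  rw [h1]
  have h2 : ((Real.pi * ((2 * k : ℤ) : ℝ) : ℝ) : ℂ) * Complex.I =
      (k : ℂ) * (2 * Real.pi * Complex.I) := by
    push_cast
    ring
  rw [h2, Complex.exp_int_mul_two_pi_mul_I]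
  simp

/-- the data of one parameter: the test function near the ball and the dual bound -/
lemma par4 (hqq : S_qq) (hp : S4_ph) (hvl : S4_vl) (hd : S4_dual) (m γ ε' ε : ℝ) (hm : 0 < m)
    (hγ0 : 0 < γ) (hε0 : 0 < ε) (hε1 : ε ≤ 1 / 4) (hεγ : ε ≤ γ / 2) (hεε' : ε ≤ ε' / 8)
    (M : ℝ) (hM : mu4 m ≤ M) :
    ∃ ε1 : ℝ, 0 < ε1 ∧ ∃ n₀ : ℕ, ∀ n : ℕ, n₀ ≤ n → ∀ σ : ℝ, Qz4 m n σ → |σ| ≤ 1 →
      (∀ w : ℕ, w ≤ n → γ ≤ 1 - 2 * (w : ℝ) / n - THR 0 m →
        |1 - (v4 m n w σ ε ε 0).re| ≤ Real.exp (-ε1 * n)) ∧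
      ∀ f : ℕ → ℝ, |∑ w ∈ Finset.range (n + 1), (n.choose w : ℝ) * (v4 m n w σ ε ε 0).re * f w| ≤
        Real.exp (n * (M + ε' / 4)) * NN n f := by
  obtain ⟨T, hT⟩ : ∃ T : ℝ, T = Real.arsinh (√m) / 2 := ⟨_, rfl⟩
  have hT0 : 0 < T := by
    rw [hT]
    have : 0 < Real.arsinh (√m) := Real.arsinh_pos_iff.2 (Real.sqrt_pos.2 hm)
    linarith
  have hTs : Real.sinh (2 * T) ^ 2 = m := by
    rw [hT, mul_div_cancel₀ _ (two_ne_zero), Real.sinh_arsinh, Real.sq_sqrt hm.le]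
  obtain ⟨εl, hεl, n2, h2⟩ := hvl m T hm hT0 hTs ε ε (γ / 2) (T / 2) hε0 hε0.le (by linarith)
    (by linarith) (by linarith)
  obtain ⟨n4, h4⟩ := hd m ε hm hε0
  refine ⟨εl, hεl, n2 + n4 + 1, fun n hnn σ hqz hσ => ⟨fun w hw hb => ?_, fun f => ?_⟩⟩
  · have e1 := h2 n (by omega) σ hqz w hw 0 (by
      rw [abs_zero]
      linarith) (by
      rw [mul_zero, Real.cosh_zero, mul_one, Real.sinh_zero]
      rw [show (0 : ℝ) ^ 2 = 0 by norm_num]
      linarith)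
    rw [MA4f.QJ_zero hqq hp m hm n w hw] at e1
    have e2 := (Complex.abs_re_le_norm _).trans e1
    rw [Complex.sub_re, Complex.one_re, abs_sub_comm] at e2
    exact e2
  · have hdual := h4 n (by omega) σ ε 0 f hσ
    have hre : (∑ w ∈ Finset.range (n + 1), (n.choose w : ℂ) * v4 m n w σ ε ε 0 *
        (f w : ℂ)).re = ∑ w ∈ Finset.range (n + 1), (n.choose w : ℝ) *
          (v4 m n w σ ε ε 0).re * f w := by
      rw [Complex.re_sum]
      refine Finset.sum_congr rfl fun w _ => ?_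
      rw [Complex.re_mul_ofReal, ← Complex.ofReal_natCast, Complex.re_ofReal_mul]
    have hNN0 : 0 ≤ NN n f := by
      unfold NN
      exact Finset.sum_nonneg fun j _ => mul_nonneg (Nat.cast_nonneg _) (abs_nonneg _)
    rw [← hre]
    refine (Complex.abs_re_le_norm _).trans (hdual.trans ?_)
    refine mul_le_mul_of_nonneg_right ?_ hNN0
    refine Real.exp_le_exp.2 (mul_le_mul_of_nonneg_left ?_ (Nat.cast_nonneg n))
    rw [abs_of_pos hε0]
    linarith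

theorem star4p (hk : S_kra) (hqq : S_qq) (hp : S4_ph) (hvl : S4_vl) (hvr : S4_vr) (hvt : S4_vt)
    (hd : S4_dual) (hn : S4_near) (hvu : S4_vu) (m₁ m₂ δ ε' M : ℝ) (q : ℕ) (hm₁ : 0 < m₁)
    (hm₂ : 0 < m₂) (hδ₁ : δ < 1 / 2 - 1 / 2 * THR 0 m₁) (hδ₂ : δ < 1 / 2 - 1 / 2 * THR 0 m₂)
    (hM₁ : mu4 m₁ ≤ M) (hM₂ : mu4 m₂ ≤ M) (hε' : 0 < ε') (hq : 0 < q)
    (hpq₁ : ∃ p : ℤ, Odd p ∧ Nbar m₁ * q = p) (hpq₂ : ∃ p : ℤ, Even p ∧ Nbar m₂ * q = p) :
    ∃ κ : ℝ, 0 < κ ∧ ∃ r : ℕ, Odd r ∧ ∃ n₀ : ℕ, ∀ n : ℕ, n₀ ≤ n →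
      (∃ j : ℕ, Odd j ∧ n = q * r * j) → ∀ d : ℕ, (d : ℝ) ≤ δ * n →
      StarAt n d (1 + Real.exp (-(n * κ)))
        (Real.exp (n * (M + 1 / 2 * Real.log 2 + ε'))) := by
  obtain ⟨p₁, hp₁, hpN₁⟩ := hpq₁
  obtain ⟨p₂, hp₂, hpN₂⟩ := hpq₂
  obtain ⟨T, hT⟩ : ∃ T : ℝ, T = Real.arsinh (√m₁) / 2 := ⟨_, rfl⟩
  have hT0 : 0 < T := by
    rw [hT]
    have : 0 < Real.arsinh (√m₁) := Real.arsinh_pos_iff.2 (Real.sqrt_pos.2 hm₁)
    linarith
  have hTs : Real.sinh (2 * T) ^ 2 = m₁ := by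
    rw [hT, mul_div_cancel₀ _ (two_ne_zero), Real.sinh_arsinh, Real.sq_sqrt hm₁.le]
  obtain ⟨γ, hγ⟩ : ∃ γ : ℝ, γ = min (1 - 2 * δ - THR 0 m₁) (1 - 2 * δ - THR 0 m₂) := ⟨_, rfl⟩
  have hγ0 : 0 < γ := by
    rw [hγ]
    exact lt_min (by linarith) (by linarith)
  have hγ1 : γ ≤ 1 - 2 * δ - THR 0 m₁ := by rw [hγ]; exact min_le_left _ _
  have hγ2 : γ ≤ 1 - 2 * δ - THR 0 m₂ := by rw [hγ]; exact min_le_right _ _
  obtain ⟨ε, hε⟩ : ∃ ε : ℝ, ε = min (min (γ / 2) (ε' / 8)) (1 / 4) := ⟨_, rfl⟩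
  have hε0 : 0 < ε := by
    rw [hε]
    exact lt_min (lt_min (by linarith) (by linarith)) (by norm_num)
  have hε4 : ε ≤ 1 / 4 := by
    rw [hε]
    exact min_le_right _ _
  have hεγ : ε ≤ γ / 2 := by
    rw [hε]
    exact (min_le_left _ _).trans (min_le_left _ _)
  have hεε' : ε ≤ ε' / 8 := by
    rw [hε]
    exact (min_le_left _ _).trans (min_le_right _ _)
  obtain ⟨D0, hD0, εt, hεt, n1, h1⟩ := hvt m₁ hm₁ ε ε hε0 (by linarith) hε0.le (by linarith)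
  obtain ⟨εa, hεa, n2, h2⟩ := par4 hqq hp hvl hd m₁ γ ε' ε hm₁ hγ0 hε0 hε4 hεγ hεε' M hM₁
  obtain ⟨εb, hεb, n3, h3⟩ := par4 hqq hp hvl hd m₂ γ ε' ε hm₂ hγ0 hε0 hε4 hεγ hεε' M hM₂
  obtain ⟨εu, hεu, n4, h4⟩ := hvu m₂ hm₂ ε ε hε0 (by linarith) hε0.le (by linarith)
  -- the middle region for the first parameter
  obtain ⟨Δ, hΔ⟩ : ∃ Δ : ℝ, Δ = D0 := ⟨_, rfl⟩
  obtain ⟨εm, hεm, n9, h9⟩ := hvl m₁ T hm₁ hT0 hTs ε ε D0 (T / 2) hε0 hε0.le (by linarith) hD0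
    (by linarith)
  obtain ⟨ε1, hε1e⟩ : ∃ ε1 : ℝ, ε1 = min (min (min εt εa) (min εb εu)) εm := ⟨_, rfl⟩
  have hε1 : 0 < ε1 := by
    rw [hε1e]
    exact lt_min (lt_min (lt_min hεt hεa) (lt_min hεb hεu)) hεm
  have hε1t : ε1 ≤ εt := by
    rw [hε1e]
    exact ((min_le_left _ _).trans (min_le_left _ _)).trans (min_le_left _ _)
  have hε1a : ε1 ≤ εa := by
    rw [hε1e]
    exact ((min_le_left _ _).trans (min_le_left _ _)).trans (min_le_right _ _)
  have hε1b : ε1 ≤ εb := by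
    rw [hε1e]
    exact ((min_le_left _ _).trans (min_le_right _ _)).trans (min_le_left _ _)
  have hε1u : ε1 ≤ εu := by
    rw [hε1e]
    exact ((min_le_left _ _).trans (min_le_right _ _)).trans (min_le_right _ _)
  have hε1m : ε1 ≤ εm := by
    rw [hε1e]
    exact min_le_right _ _
  obtain ⟨n7, h7⟩ := hvr m₁ T hm₁ hT0 hTs ε (ε1 / 4) (T / 2) hε0 (by linarith) (by linarith)
  obtain ⟨r, hr, n5, h5⟩ := hn m₁ q hm₁ hq ⟨p₁, hpN₁⟩ ε (ε1 / 4) (ε' / 4) hε0 (by linarith)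
    (by linarith)
  obtain ⟨n6, h6⟩ := exp_large (e := ε1 / 8) (B := 16) (by linarith)
  obtain ⟨n8, h8⟩ := exp_large (e := 3 / 4 * ε') (B := 2) (by linarith)
  refine ⟨ε1 / 8, by linarith, r, hr,
    n1 + n2 + n3 + n4 + n5 + n6 + n7 + n8 + n9 + 1, ?_⟩
  intro n hnn hjn d hdn
  obtain ⟨j, hj, hnj⟩ := hjn
  have hqz₁ : Qz4 m₁ n (-1) := MA4f.qz4_odd m₁ q r j n p₁ hp₁ hpN₁ hr hj hnj
  have hqz₂ : Qz4 m₂ n 1 := qz4_even m₂ q r j n p₂ hp₂ hpN₂ hnj
  have hdvd : q * r ∣ n := ⟨j, hnj⟩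
  have hn1 : (1 : ℝ) ≤ n := by
    have : 1 ≤ n := by omega
    exact_mod_cast this
  have hnpos : (0 : ℝ) < n := by linarith
  obtain ⟨y, hy⟩ : ∃ y : ℝ, y = Real.exp (-(n * (ε1 / 8))) := ⟨_, rfl⟩
  have hy0 : 0 < y := by rw [hy]; exact Real.exp_pos _
  have hy16 : y ≤ 1 / 16 := by
    have e1 := h6 n (by omega)
    rw [hy, Real.exp_neg, one_div]
    exact inv_anti₀ (by norm_num) e1
  have hpow : ∀ k : ℕ, y ^ k = Real.exp (-(n * (ε1 * k / 8))) := by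
    intro k
    rw [hy, ← Real.exp_nat_mul]
    congr 1
    ring
  have hexp : ∀ a : ℝ, ε1 ≤ a → Real.exp (-a * n) ≤ y ^ 8 := by
    intro a ha
    rw [hpow 8]
    refine Real.exp_le_exp.2 ?_
    have : -a * n ≤ -ε1 * n := mul_le_mul_of_nonneg_right (neg_le_neg ha) hnpos.le
    push_cast
    linarith
  -- the two test functions
  obtain ⟨v1, hv1⟩ : ∃ v1 : ℕ → ℝ, ∀ w, v1 w = (v4 m₁ n w (-1) ε ε 0).re := ⟨_, fun _ => rfl⟩
  obtain ⟨v2, hv2⟩ : ∃ v2 : ℕ → ℝ, ∀ w, v2 w = (v4 m₂ n w 1 ε ε 0).re := ⟨_, fun _ => rfl⟩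
  obtain ⟨a1, a2⟩ := h2 n (by omega) (-1) hqz₁ (by norm_num)
  obtain ⟨b1, b2⟩ := h3 n (by omega) 1 hqz₂ (by norm_num)
  have hwn : ∀ w ∈ Finset.range (n + 1), w ≤ n := fun w hw => by
    have := Finset.mem_range.1 hw
    omega
  obtain ⟨c, hc⟩ : ∃ c : ℝ, c = y ^ 4 := ⟨_, rfl⟩
  have hc0 : 0 < c := by rw [hc]; positivity
  have hc1 : c ≤ 1 := by
    rw [hc]
    exact pow_le_one₀ hy0.le (by linarith)
  obtain ⟨v, hv⟩ : ∃ v : ℕ → ℝ, ∀ w, v w = (1 - c) * v2 w + c * v1 w := ⟨_, fun _ => rfl⟩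
  -- powers of `y`
  have y8 : y ^ 8 ≤ 1 / 16 * y ^ 7 := by
    rw [show y ^ 8 = y * y ^ 7 by ring]
    exact mul_le_mul_of_nonneg_right hy16 (by positivity)
  have y7 : y ^ 7 ≤ 1 / 16 * y ^ 6 := by
    rw [show y ^ 7 = y * y ^ 6 by ring]
    exact mul_le_mul_of_nonneg_right hy16 (by positivity)
  have y6 : y ^ 6 ≤ 1 / 16 * y ^ 5 := by
    rw [show y ^ 6 = y * y ^ 5 by ring]
    exact mul_le_mul_of_nonneg_right hy16 (by positivity)
  have y5 : y ^ 5 ≤ 1 / 16 * y ^ 4 := by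
    rw [show y ^ 5 = y * y ^ 4 by ring]
    exact mul_le_mul_of_nonneg_right hy16 (by positivity)
  have y4 : y ^ 4 ≤ 1 / 16 * y ^ 3 := by
    rw [show y ^ 4 = y * y ^ 3 by ring]
    exact mul_le_mul_of_nonneg_right hy16 (by positivity)
  have y3 : y ^ 3 ≤ 1 / 16 * y ^ 2 := by
    rw [show y ^ 3 = y * y ^ 2 by ring]
    exact mul_le_mul_of_nonneg_right hy16 (by positivity)
  have y2 : y ^ 2 ≤ 1 / 16 * y := by
    rw [show y ^ 2 = y * y by ring]
    exact mul_le_mul_of_nonneg_right hy16 hy0.le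
  have y80 : 0 < y ^ 8 := by positivity
  have hbd : ∀ (m : ℝ), γ ≤ 1 - 2 * δ - THR 0 m → ∀ w : ℕ, w < d →
      γ ≤ 1 - 2 * (w : ℝ) / n - THR 0 m := by
    intro m hγm w hw
    have e1 : (w : ℝ) ≤ δ * n := by
      have : (w : ℝ) ≤ d := by exact_mod_cast hw.le
      linarith
    have e2 : 2 * (w : ℝ) / n ≤ 2 * δ := by
      rw [div_le_iff₀ hnpos]
      linarith
    linarith
  have hv1up : ∀ w ≤ n, v1 w ≤ 1 + y ^ 8 := by
    intro w hw
    rw [hv1]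
    rcases le_total (1 - 2 * (w : ℝ) / n - THR 0 m₁) (ε + D0) with hb | hb
    · have e1 := (h1 n (by omega) hqz₁ w hw).1 hb
      have e2 := hexp εt hε1t
      linarith
    · have e1 := h9 n (by omega) (-1) hqz₁ w hw 0 (by
        rw [abs_zero]
        linarith) (by
        rw [mul_zero, Real.cosh_zero, mul_one, Real.sinh_zero]
        rw [show (0 : ℝ) ^ 2 = 0 by norm_num]
        exact hb)
      rw [MA4f.QJ_zero hqq hp m₁ hm₁ n w hw] at e1
      have e2 := (Complex.re_le_norm _).trans e1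
      rw [Complex.sub_re, Complex.one_re] at e2
      have e3 := hexp εm hε1m
      linarith
  have hv1lo : ∀ w ≤ n, -Real.exp (ε1 / 4 * n) ≤ v1 w := by
    intro w hw
    have e1 := h7 n (by omega) (-1) hqz₁ w hw ε 0 (by
      rw [abs_of_pos hε0]
      linarith) (by
      rw [abs_zero]
      linarith)
    have e2 := (abs_le.1 ((Complex.abs_re_le_norm _).trans e1)).1
    rw [hv1]
    exact e2
  have hv2b : ∀ w ≤ n, -(y ^ 8) ≤ v2 w ∧ v2 w ≤ 1 + y ^ 8 := by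
    intro w hw
    have e1 := h4 n (by omega) hqz₂ w hw
    have e2 := hexp εu hε1u
    rw [hv2]
    exact ⟨by linarith [e1.1], by linarith [e1.2]⟩
  have hyE : y ^ 2 * Real.exp (ε1 / 4 * n) = 1 := by
    rw [hpow 2, ← Real.exp_add]
    have : -((n : ℝ) * (ε1 * (2 : ℕ) / 8)) + ε1 / 4 * n = 0 := by
      push_cast
      ring
    rw [this, Real.exp_zero]
  have hstar := star_of hk n d (fun w : ℕ => ε ≤ 1 - 2 * (w : ℝ) / n - THR 0 m₁) v (y ^ 8)
    (y ^ 5) (y ^ 8 + y ^ 2) (Real.exp (ε1 / 4 * n)) (Real.exp (n * (M + ε' / 4)))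
    (Real.exp (n * (M + ε' / 4))) y80.le (pow_le_one₀ hy0.le (by linarith)) (by positivity)
    (by positivity) (Real.exp_pos _).le (by
      rw [show y ^ 8 = y ^ 6 * y ^ 2 by ring, mul_assoc, hyE, mul_one]
      linarith [pow_pos hy0 5])
    (fun w hw hwd => by
      have hw' := hwn w hw
      have e1 := (a1 w hw' (hbd m₁ hγ1 w hwd)).trans (hexp εa hε1a)
      have e2 := (b1 w hw' (hbd m₂ hγ2 w hwd)).trans (hexp εb hε1b)
      rw [← hv1] at e1
      rw [← hv2] at e2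
      have e3 : 1 - v w = (1 - c) * (1 - v2 w) + c * (1 - v1 w) := by
        rw [hv]
        ring
      rw [e3]
      refine (abs_add_le _ _).trans ?_
      rw [abs_mul, abs_mul, abs_of_nonneg (by linarith : 0 ≤ 1 - c), abs_of_pos hc0]
      have e4 := mul_le_mul_of_nonneg_left e2 (by linarith : 0 ≤ 1 - c)
      have e5 := mul_le_mul_of_nonneg_left e1 hc0.le
      linarith)
    (fun w hw hwd => by
      have e1 := hbd m₁ hγ1 w hwd
      linarith)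
    (fun w hw _ => by
      have hw' := hwn w hw
      have e1 := mul_le_mul_of_nonneg_left (hv2b w hw').2 (by linarith : 0 ≤ 1 - c)
      have e2 := mul_le_mul_of_nonneg_left (hv1up w hw') hc0.le
      rw [hv]
      linarith)
    (fun w hw hb => by
      have hw' := hwn w hw
      have e0 := (h1 n (by omega) hqz₁ w hw').2 (le_of_lt (not_le.1 hb))
      rw [← hv1] at e0
      have e1 := mul_le_mul_of_nonneg_left (hv2b w hw').2 (by linarith : 0 ≤ 1 - c)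
      have e2 := mul_le_mul_of_nonneg_left e0 hc0.le
      rw [hv]
      have e3 : 0 ≤ c * y ^ 8 := by positivity
      have e4 : y ^ 4 = c := hc.symm
      nlinarith)
    (fun w hw => by
      have hw' := hwn w hw
      have e1 := mul_le_mul_of_nonneg_left (hv2b w hw').1 (by linarith : 0 ≤ 1 - c)
      have e2 := mul_le_mul_of_nonneg_left (hv1lo w hw') hc0.le
      have e3 : c * Real.exp (ε1 / 4 * n) = y ^ 2 := by
        rw [hc, show y ^ 4 = y ^ 2 * y ^ 2 by ring, mul_assoc, hyE, mul_one]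
      rw [hv]
      have e4 : 0 ≤ c * y ^ 8 := by positivity
      nlinarith)
    (fun f => by
      have e1 := a2 f
      have e2 := b2 f
      simp only [← hv1] at e1
      simp only [← hv2] at e2
      have e3 : ∑ w ∈ Finset.range (n + 1), (n.choose w : ℝ) * v w * f w =
          (1 - c) * ∑ w ∈ Finset.range (n + 1), (n.choose w : ℝ) * v2 w * f w +
          c * ∑ w ∈ Finset.range (n + 1), (n.choose w : ℝ) * v1 w * f w := by
        rw [Finset.mul_sum, Finset.mul_sum, ← Finset.sum_add_distrib]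
        refine Finset.sum_congr rfl fun w _ => ?_
        rw [hv]
        ring
      rw [e3]
      refine (abs_add_le _ _).trans ?_
      rw [abs_mul, abs_mul, abs_of_nonneg (by linarith : 0 ≤ 1 - c), abs_of_pos hc0]
      have e4 := mul_le_mul_of_nonneg_left e2 (by linarith : 0 ≤ 1 - c)
      have e5 := mul_le_mul_of_nonneg_left e1 hc0.le
      linarith)
    (fun f => by
      have e1 := h5 n (by omega) hdvd f
      simp only [not_le]
      refine e1.trans (add_le_add_right (mul_le_mul_of_nonneg_right (Real.exp_le_exp.2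
        (mul_le_mul_of_nonneg_left (by linarith) hnpos.le)) ?_) _)
      unfold NN
      exact Finset.sum_nonneg fun j _ => mul_nonneg (Nat.cast_nonneg _) (abs_nonneg _))
  refine StarAt.mono hstar ?_ ?_
  · rw [← hy]
    have e5 : 0 < y ^ 5 := by positivity
    linarith
  · have e2 : 2 ≤ Real.exp (n * (3 / 4 * ε')) := h8 n (by omega)
    have e1 : Real.exp (n * (M + 1 / 2 * Real.log 2 + ε')) =
        Real.exp (n * (3 / 4 * ε')) * (Real.exp (n * (M + ε' / 4)) * √2 ^ n) := by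
      rw [s2e, ← Real.exp_add, ← Real.exp_add]
      congr 1
      ring
    rw [e1]
    have e3 : 0 ≤ Real.exp (n * (M + ε' / 4)) * √2 ^ n := by positivity
    calc (Real.exp (n * (M + ε' / 4)) + Real.exp (n * (M + ε' / 4))) * √2 ^ n =
        2 * (Real.exp (n * (M + ε' / 4)) * √2 ^ n) := by ring
      _ ≤ Real.exp (n * (3 / 4 * ε')) * (Real.exp (n * (M + ε' / 4)) * √2 ^ n) :=
        mul_le_mul_of_nonneg_right e2 e3

end Pool.Agent.H2xSE
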