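import Mathlib
import Pool.Agent.TH41.BL.ASMH
import Pool.Agent.TH41.BL.EFI

/-!
H2xSE (helper2, MP_0430e4_lc): the threshold is positive.
-/

set_option autoImplicit false

open MeasureTheory Filter Topology

namespace Pool.Agent.H2xSE

open Pool.Agent.TH41.BL Pool.Agent.TH41.BL.EFIf

theorem thr_pos {m : ℝ} (hm : 0 < m) : 0 < THR 0 m := by
  obtain ⟨k, hk⟩ : ∃ k : ℝ, k = √(m / (1 + m)) := ⟨_, rfl⟩
  have h0 : 0 < m / (1 + m) := by positivity
  have hk0 : 0 < k := by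
    rw [hk]
    exact Real.sqrt_pos.2 h0
  have hk2 : k ^ 2 = m / (1 + m) := by
    rw [hk, Real.sq_sqrt h0.le]
  have hk1 : k < 1 := by
    have h1 : k ^ 2 < 1 := by
      rw [hk2, div_lt_one (by linarith)]
      linarith
    nlinarith
  have hmk : k ^ 2 / (1 - k ^ 2) = m := by
    rw [hk2]
    field_simp
    ring
  have h1 := k5_b k hk0 hk1
  rw [hmk] at h1
  have h2 := k5_b (k / 2) (by linarith) (by linarith)
  have h3 := (k4_thr.2.2.1 0 ((k / 2) ^ 2 / (1 - (k / 2) ^ 2)) le_rfl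
    (mk_pos (by linarith) (by linarith))).1
  have h4 : Dk (k / 2) < Dk k := Dk_mono k3_w k5_wn k5_kd ⟨by linarith, by linarith⟩
    ⟨hk0, hk1⟩ (by linarith)
  have eD : ∀ y : ℝ, (Ec y - (1 - y ^ 2) * Kc y) / (Real.pi * y) = Dk y / Real.pi := by
    intro y
    unfold Dk
    rw [div_div, mul_comm Real.pi y]
  rw [eD] at h1 h2
  have hpi := Real.pi_pos
  have h5 : Dk (k / 2) / Real.pi < Dk k / Real.pi := div_lt_div_of_pos_right h4 hpi
  linarith

end Pool.Agent.H2xSE
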