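import Mathlib
import Pool.Agent.H2xSE.Stm
import Pool.Agent.TH41.BL.VT4
import Pool.Agent.TH41.BL.VV4
import Pool.Agent.TH41.BL.Stm4

/-!
H2xSE (helper2, MP_0430e4_lc): the test function `v4` with the sign `1`.
-/

set_option autoImplicit false

open MeasureTheory Filter Topology

namespace Pool.Agent.H2xSE

open Pool.Agent.TH41.BL

theorem vu4 (hpg : S4_pg) (hqb : S4_qb) (hl : S4_left) (htr : S4_trans) (ho : S4_out)
    (ht : S4_thr) (hTHR : ∀ m : ℝ, 0 < m → 0 < THR 0 m) : S4_vu := by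
  intro m hm ε η hε hε1 hη0 hη1
  obtain ⟨T, hT0, hTm⟩ : ∃ T : ℝ, 0 < T ∧ Real.sinh (2 * T) ^ 2 = m := by
    refine ⟨Real.arsinh (√m) / 2, ?_, ?_⟩
    · have : 0 < Real.arsinh (√m) := Real.arsinh_pos_iff.mpr (Real.sqrt_pos.mpr hm)
      linarith
    · rw [show 2 * (Real.arsinh (√m) / 2) = Real.arsinh (√m) by ring, Real.sinh_arsinh,
        Real.sq_sqrt hm.le]
  have hηa : |η| ≤ 1 := by rw [abs_of_nonneg hη0]; exact hη1
  have hηn : |-η| ≤ 1 := by rw [abs_neg]; exact hηa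
  obtain ⟨θ, hθ⟩ : ∃ θ : ℝ, θ = THR 0 m := ⟨_, rfl⟩
  have hθ0 : 0 < θ := by rw [hθ]; exact hTHR m hm
  obtain ⟨T', hT1, hT'0, hT'T, c1, hc1, h1⟩ :=
    ho m T hm hT0 hTm ε (T / 4) hε (by linarith) (by linarith)
  have hsm : Real.sinh (2 * T') ^ 2 < m := by
    rw [← hTm]
    have h2 : 0 < Real.sinh (2 * T') := Real.sinh_pos_iff.mpr (by linarith)
    have h3 : Real.sinh (2 * T') < Real.sinh (2 * T) := Real.sinh_lt_sinh.mpr (by linarith)
    nlinarith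
  obtain ⟨C₀, κ₀, hC₀, hκ₀, hκ₀', hP⟩ := hpg m T' hm hT'0 hsm
  obtain ⟨C, κ, hC, hκ, hκ', hQ⟩ := hqb (PJ m) (JJ m) T' C₀ κ₀ hT'0 hC₀ hκ₀ hκ₀' hP
  obtain ⟨Δ₁, hΔ₁, c2, hc2, h2⟩ := htr T' C κ hT'0 hC hκ hκ' ε η hε hε1 hηa
  obtain ⟨Δ₂, hΔ₂, c3, hc3, h3⟩ := htr T' C κ hT'0 hC hκ hκ' ε (-η) hε hε1 hηn
  obtain ⟨D₁, hD₁, hDa, hDb, -, -⟩ := VT4f.ex4 Δ₁ (θ / 2) 1 1 hΔ₁ (by linarith) one_pos one_pos
  obtain ⟨D₂, hD₂, hDc, hDd, -, -⟩ := VT4f.ex4 Δ₂ (θ / 2) 1 1 hΔ₂ (by linarith) one_pos one_pos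
  obtain ⟨c4, hc4, h4⟩ := hl T' C κ hT'0 hC hκ hκ' ε η D₁ T' hε hηa hD₁ hT'0
  obtain ⟨c5, hc5, h5⟩ := hl T' C κ hT'0 hC hκ hκ' ε (-η) D₂ T' hε hηn hD₂ hT'0
  obtain ⟨c', hc', hcc1, hcc2, hcc3, hcc4⟩ := VT4f.ex4 c1 c2 c3 c4 hc1 hc2 hc3 hc4
  obtain ⟨c, hc, hca, hcb, -, -⟩ := VT4f.ex4 c' c5 1 1 hc' hc5 one_pos one_pos
  obtain ⟨e1, he1, n1, h1'⟩ := h1 c hc (hca.trans hcc1)
  obtain ⟨e2, he2, n2, h2'⟩ := h2 c hc (hca.trans hcc2)
  obtain ⟨e3, he3, n3, h3'⟩ := h3 c hc (hca.trans hcc3)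
  obtain ⟨e4, he4, n4, h4'⟩ := h4 c hc (hca.trans hcc4)
  obtain ⟨e5, he5, n5, h5'⟩ := h5 c hc hcb
  obtain ⟨e', he', k1', k2', k3', k4'⟩ := VT4f.ex4 e1 e2 e3 e4 he1 he2 he3 he4
  obtain ⟨e, he, ka, k5, -, -⟩ := VT4f.ex4 e' e5 1 1 he' he5 one_pos one_pos
  have k1 := ka.trans k1'
  have k2 := ka.trans k2'
  have k3 := ka.trans k3'
  have k4 := ka.trans k4'
  obtain ⟨N, hN⟩ := exists_nat_ge (100 / e)
  refine ⟨e / 2, by linarith, n1 + n2 + n3 + n4 + n5 + N + 1, ?_⟩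
  intro n hn hQz w hw
  have hn0 : 0 < n := by omega
  have hnR : (0 : ℝ) ≤ n := Nat.cast_nonneg n
  have hN' : 100 ≤ e * n := by
    have h5 : (N : ℝ) ≤ n := by exact_mod_cast (by omega : N ≤ n)
    have h6 : 100 / e ≤ n := hN.trans h5
    rw [div_le_iff₀ he] at h6
    linarith
  -- the errors
  obtain ⟨y, hy⟩ : ∃ y, y = Real.exp (-(e / 2) * n) := ⟨_, rfl⟩
  have hy0 : 0 < y := by rw [hy]; exact Real.exp_pos _
  have hy1 : y ≤ 1 / 50 := by
    rw [hy, neg_mul, Real.exp_neg, ← one_div]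
    refine one_div_le_one_div_of_le (by norm_num) ?_
    have := Real.add_one_le_exp (e / 2 * n)
    linarith
  have hx : Real.exp (-e * n) = y ^ 2 := by
    rw [hy, ← Real.exp_nat_mul]
    congr 1
    push_cast
    ring
  have herr : ∀ e' : ℝ, e ≤ e' → Real.exp (-e' * n) ≤ y ^ 2 := by
    intro e' he'
    rw [← hx]
    exact Real.exp_le_exp.mpr (by nlinarith)
  -- the exponent
  have hb : ∀ w : ℕ, w ≤ n → bb n w + (JJ m 0).re = 1 - 2 * (w : ℝ) / n - THR 0 m := by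
    intro w hw
    have h5 := (hQ n w hn0 hw).m12
    have h6 := ht.2.1 ((w : ℝ) / n) m 0 hm (by simpa using hm)
    beta_reduce at h5
    rw [← h5, h6]
    simp only [mul_zero, Real.sinh_zero, Real.cosh_zero, div_one]
    rw [show (0 : ℝ) ^ 2 = 0 by norm_num]
    ring
  obtain ⟨A, hA⟩ : ∃ A, A = vS (QJ m n w) T' n ε η c 0 := ⟨_, rfl⟩
  obtain ⟨B, hB⟩ : ∃ B, B = vS (QJ m n (n - w)) T' n ε (-η) c 0 := ⟨_, rfl⟩
  have hQw := hQ n w hn0 hw
  have hQw' := hQ n (n - w) hn0 (Nat.sub_le n w)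
  have hout := h1' n (by omega) 1 hQz w hw η 0 hηa (by rw [abs_zero]; linarith)
  rw [neg_zero, ← hA, ← hB] at hout
  have hout' : |(v4 m n w 1 ε η 0).re - (A.re + B.re)| ≤ y ^ 2 := by
    have h5 := (Complex.abs_re_le_norm _).trans (hout.trans (herr e1 k1))
    have h6 : (v4 m n w 1 ε η 0 - (A + ((1 : ℝ) : ℂ) * B)).re =
        (v4 m n w 1 ε η 0).re - (A.re + B.re) := by
      simp
    rw [h6] at h5
    exact h5
  -- the two exponents
  have hbw := hb w hw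
  have hbw' := hb (n - w) (Nat.sub_le n w)
  have hcs := VV4f.cast_sub_div hn0 hw
  have hsum : (bb n (n - w) + (JJ m 0).re) = -(bb n w + (JJ m 0).re) - 2 * θ := by
    rw [hbw, hbw', hθ]
    rw [mul_div_assoc, mul_div_assoc]
    linarith
  have hyy : y ^ 2 ≤ 1 / 50 * y := by
    rw [pow_two]
    exact mul_le_mul_of_nonneg_right hy1 hy0.le
  have hτ0 : |(0 : ℝ)| ≤ T' - T' := by rw [abs_zero, sub_self]
  have hy2 : 0 ≤ y ^ 2 := sq_nonneg y
  -- the first term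
  have hA1 := h2' n (by omega) (QJ m n w) _ _ _ hQw
  have hA2 := h4' n (by omega) (QJ m n w) _ _ _ hQw 0 hτ0
  rw [← hA] at hA1 hA2
  rw [hQw.m12] at hA2
  have hB1 := h3' n (by omega) (QJ m n (n - w)) _ _ _ hQw'
  have hB2 := h5' n (by omega) (QJ m n (n - w)) _ _ _ hQw' 0 hτ0
  rw [← hB] at hB1 hB2
  rw [hQw'.m12] at hB2
  have q0 : ∀ w : ℕ, w ≤ n → QJ m n w (((0 : ℝ) : ℂ) * Complex.I) = 1 := by
    intro w hw
    rw [Complex.ofReal_zero, zero_mul]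
    exact (hQ n w hn0 hw).mz
  rw [q0 w hw] at hA2
  rw [q0 (n - w) (Nat.sub_le n w)] at hB2
  have hAlow : -(y ^ 2) ≤ A.re := by
    by_cases h5 : η - Δ₁ ≤ bb n w + (JJ m 0).re
    · have h6 := hA1.2.2 h5
      have h7 := herr e2 k2
      linarith
    · have h6 := hA2.2 (by linarith)
      have h7 := herr e4 k4
      have h8 := neg_le_of_abs_le (Complex.abs_re_le_norm A)
      linarith
  have hAup : A.re ≤ 1 + y ^ 2 := by
    by_cases h5 : bb n w + (JJ m 0).re ≤ η + Δ₁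
    · have h6 := hA1.1 h5
      have h7 := herr e2 k2
      linarith
    · have h6 := hA2.1 (by linarith)
      have h7 := herr e4 k4
      have h8 := (Complex.re_le_norm (A - 1))
      rw [Complex.sub_re, Complex.one_re] at h8
      linarith
  have hBlow : -(y ^ 2) ≤ B.re := by
    by_cases h5 : -η - Δ₂ ≤ bb n (n - w) + (JJ m 0).re
    · have h6 := hB1.2.2 h5
      have h7 := herr e3 k3
      linarith
    · have h6 := hB2.2 (by linarith)
      have h7 := herr e5 k5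
      have h8 := neg_le_of_abs_le (Complex.abs_re_le_norm B)
      linarith
  have hBup : B.re ≤ 1 + y ^ 2 := by
    by_cases h5 : bb n (n - w) + (JJ m 0).re ≤ -η + Δ₂
    · have h6 := hB1.1 h5
      have h7 := herr e3 k3
      linarith
    · have h6 := hB2.1 (by linarith)
      have h7 := herr e5 k5
      have h8 := (Complex.re_le_norm (B - 1))
      rw [Complex.sub_re, Complex.one_re] at h8
      linarith
  have hone : A.re + B.re ≤ 1 + 2 * y ^ 2 := by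
    by_cases h5 : bb n w + (JJ m 0).re ≤ η - D₁
    · have h6 := hA2.2 h5
      have h7 := herr e4 k4
      have h8 := Complex.re_le_norm A
      linarith
    · have h6 := hB2.2 (by linarith)
      have h7 := herr e5 k5
      have h8 := Complex.re_le_norm B
      linarith
  rw [abs_le] at hout'
  rw [← hy]
  constructor
  · linarith [hout'.1]
  · linarith [hout'.2]

end Pool.Agent.H2xSE
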