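import Mathlib
import Pool.Agent.H2xSE.Star6
import Pool.Agent.H2xSE.VU4
import Pool.Agent.H2xSE.Thp
import Pool.Agent.Y570.KP.Asym

/-!
H2xSE (helper2, MP_0430e4_lc): kernels on the cube, exponentially close to one from above.
-/

set_option autoImplicit false
set_option linter.unusedSectionVars false

open MeasureTheory Filter Topology

namespace Pool.Agent.H2xSE

open Pool.Agent.TH41.BL Pool.Agent.TH41.BL.EFIf Pool.Agent.Y570.KP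

/-- kernels with exponent `x` for the distances up to `δ n` -/
def Kd5 (δ x : ℝ) : Prop := ∀ ε : ℝ, 0 < ε → ∃ κ : ℝ, 0 < κ ∧ ∃ n₀ : ℕ, ∀ n : ℕ, n₀ ≤ n →
  ∀ d : ℕ, 1 ≤ d → (d : ℝ) ≤ δ * n → ∃ G : (Fin n → Bool) → (Fin n → Bool) → ℝ,
    Good G (1 + Real.exp (-(n * κ))) (Real.exp (n * (Real.log 2 - x + ε))) ∧
      ∀ u v, hammingDist u v < d → G u v = 0

/-- the transfer from lengths in a set with bounded gaps -/
lemma kd_of5 (hc : S7_chr) {δ δ' x x' ε κ : ℝ} (hδ : 0 ≤ δ) (hδδ : δ < δ') (hε : 0 < ε)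
    (hκ : 0 < κ) (hx : x ≤ x') (N0 g : ℕ) (Sn : ℕ → Prop)
    (hgap : ∀ n : ℕ, N0 + g ≤ n → ∃ n' r : ℕ, n = n' + r ∧ r ≤ g ∧ Sn n')
    (hS : ∀ n : ℕ, N0 ≤ n → Sn n → ∀ d : ℕ, (d : ℝ) ≤ δ' * n →
      StarAt n d (1 + Real.exp (-(n * κ))) (Real.exp (n * (Real.log 2 - x' + ε / 2)))) :
    ∃ κ : ℝ, 0 < κ ∧ ∃ n₀ : ℕ, ∀ n : ℕ, n₀ ≤ n → ∀ d : ℕ, 1 ≤ d →
    (d : ℝ) ≤ δ * n → ∃ G : (Fin n → Bool) → (Fin n → Bool) → ℝ,
    Good G (1 + Real.exp (-(n * κ))) (Real.exp (n * (Real.log 2 - x + ε))) ∧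
      ∀ u v, hammingDist u v < d → G u v = 0 := by
  have hlog : 0 < Real.log 2 := Real.log_pos (by norm_num)
  have hdd : 0 < δ' - δ := by linarith
  obtain ⟨N1, hN1⟩ := exists_nat_ge (δ' * g / (δ' - δ))
  obtain ⟨N2, hN2⟩ := exists_nat_ge
    (2 * (g * (Real.log 2 + |Real.log 2 - x + ε / 2|)) / ε)
  refine ⟨κ / 2, by linarith, N0 + g + (N1 + N2) + g, ?_⟩
  intro n hn d hd1 hd
  obtain ⟨n', r, hnr, hr, hSn⟩ := hgap n (by omega)
  subst hnr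
  have hn'0 : N0 ≤ n' := by omega
  have hr' : (r : ℝ) ≤ g := by exact_mod_cast hr
  have hr0 : (0 : ℝ) ≤ r := Nat.cast_nonneg r
  have hn'p : (0 : ℝ) ≤ n' := Nat.cast_nonneg n'
  have hc1 : ((n' + r : ℕ) : ℝ) = n' + r := by push_cast; ring
  have hN1' : δ' * g ≤ (δ' - δ) * ((n' + r : ℕ) : ℝ) := by
    have h1 : (N1 : ℝ) ≤ ((n' + r : ℕ) : ℝ) := by exact_mod_cast (by omega : N1 ≤ n' + r)
    have h2 := hN1.trans h1
    rw [div_le_iff₀ hdd] at h2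
    linarith
  have hdn : (d : ℝ) ≤ δ' * n' := by
    have h1 : δ' * r ≤ δ' * g := mul_le_mul_of_nonneg_left hr' (by linarith)
    rw [hc1] at hN1' hd
    nlinarith
  have hst := hS n' hn'0 hSn d hdn
  obtain ⟨G, hG, hGd⟩ := good_of_star hc n' d _ _ (by positivity) (Real.exp_pos _).le hd1 hst
  obtain ⟨G', hG', hGd'⟩ := good_extend n' r d _ _ (Real.exp_pos _).le G hG hGd
  refine ⟨G', hG'.mono ?_ ?_, hGd'⟩
  · have hrn : (r : ℝ) ≤ n' := by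
      have : r ≤ n' := by omega
      exact_mod_cast this
    refine add_le_add_right (Real.exp_le_exp.2 ?_) 1
    rw [hc1]
    nlinarith
  · have e1 : (2 : ℝ) ^ r = Real.exp (r * Real.log 2) := by
      rw [Real.exp_nat_mul, Real.exp_log two_pos]
    rw [e1, ← Real.exp_add]
    refine Real.exp_le_exp.2 ?_
    have hN2' : 2 * (g * (Real.log 2 + |Real.log 2 - x + ε / 2|)) ≤ ((n' + r : ℕ) : ℝ) * ε := by
      have h1 : (N2 : ℝ) ≤ ((n' + r : ℕ) : ℝ) := by exact_mod_cast (by omega : N2 ≤ n' + r)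
      have h2 := hN2.trans h1
      rwa [div_le_iff₀ hε] at h2
    rw [hc1] at hN2' ⊢
    have h3 : (n' : ℝ) * (Real.log 2 - x' + ε / 2) ≤ n' * (Real.log 2 - x + ε / 2) :=
      mul_le_mul_of_nonneg_left (by linarith) hn'p
    have h4 : (r : ℝ) * Real.log 2 ≤ g * Real.log 2 := mul_le_mul_of_nonneg_right hr' hlog.le
    have h5 : -(r * (Real.log 2 - x + ε / 2)) ≤ g * |Real.log 2 - x + ε / 2| := by
      have h6 := neg_abs_le (Real.log 2 - x + ε / 2)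
      have h7 := abs_nonneg (Real.log 2 - x + ε / 2)
      nlinarith [mul_le_mul_of_nonneg_right hr' h7, mul_le_mul_of_nonneg_left h6 hr0]
    nlinarith

theorem kd3p (hc : S7_chr) (hlow : S3_low) {m δ : ℝ} (hm0 : 0 < m) (hδ0 : 0 ≤ δ)
    (hδ : δ < NR m 0) : Kd5 δ (Real.log 2 - I3 m) := by
  intro ε hε
  have hq := k3_quant
  obtain ⟨δ', hδ1, hδ2⟩ := exists_between hδ
  have hcont : ContinuousAt (fun y => NR y 0) m :=
    (hq.2.2.1 0).continuousAt (Ioi_mem_nhds hm0)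
  have hev : ∀ᶠ y in 𝓝 m, δ' < NR y 0 := hcont.eventually_const_lt hδ2
  obtain ⟨η, hη, hball⟩ := Metric.eventually_nhds_iff.1 hev
  obtain ⟨m', hm'0, hm'm, hm'η, q, hq0, hQ⟩ := FI3f.quant hq m η hm0 hη
  have hNR : δ' < NR m' 0 := hball (by
    rw [Real.dist_eq, abs_sub_comm, abs_of_nonneg (by linarith)]
    exact hm'η)
  have hI : I3 m' ≤ I3 m := hq.2.2.2 hm'0 hm0 hm'm
  obtain ⟨κ, hκ, N0, hN0⟩ := star3p KRAf.kra k3_ph k3_left k3_trans k3_dual k3_near hlow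
    m' δ' (ε / 2) hm'0 hNR (by linarith)
  refine kd_of5 hc hδ0 hδ1 hε hκ (x' := Real.log 2 - I3 m') (by linarith) N0 q
    (fun n => Qz m' n) ?_ ?_
  · intro n hn
    have hdm := Nat.div_add_mod n q
    have hmod := Nat.mod_lt n hq0
    exact ⟨q * (n / q), n % q, hdm.symm, hmod.le, hQ _⟩
  · intro n hn hQz d hd
    have h1 := hN0 n hn hQz d hd
    have e1 : Real.log 2 - (Real.log 2 - I3 m') + ε / 2 = mu3 m' + 1 / 2 * Real.log 2 + ε / 2 := by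
      unfold mu3
      ring
    rw [e1]
    exact h1

/-- fractions with the same denominator and numerators of both parities are dense -/
theorem parity_between (A B : ℝ) (h : A < B) : ∃ (p₁ p₂ : ℤ) (q : ℕ), 0 < q ∧ Odd p₁ ∧ Even p₂ ∧
    A < (p₁ : ℝ) / q ∧ (p₁ : ℝ) / q < B ∧ A < (p₂ : ℝ) / q ∧ (p₂ : ℝ) / q < B := by
  obtain ⟨q, hq⟩ := exists_nat_gt (3 / (B - A))
  have hBA : 0 < B - A := by linarith
  have hq0' : (0 : ℝ) < q := lt_trans (by positivity) hq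
  have hq0 : 0 < q := by exact_mod_cast hq0'
  have h2 : 3 < (B - A) * q := by
    rw [div_lt_iff₀ hBA] at hq
    linarith
  have h3 := Int.floor_le ((A * q + 1) / 2)
  have h4 := Int.lt_floor_add_one ((A * q + 1) / 2)
  refine ⟨2 * ⌊(A * q + 1) / 2⌋ + 1, 2 * ⌊(A * q + 1) / 2⌋ + 2, q, hq0, ⟨_, rfl⟩,
    ⟨⌊(A * q + 1) / 2⌋ + 1, by ring⟩, ?_, ?_, ?_, ?_⟩
  · rw [lt_div_iff₀ hq0']
    push_cast
    linarith
  · rw [div_lt_iff₀ hq0']
    push_cast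
    linarith
  · rw [lt_div_iff₀ hq0']
    push_cast
    linarith
  · rw [div_lt_iff₀ hq0']
    push_cast
    linarith

/-- parameters above `m` with means of both parities -/
theorem quant5 (hq : S3_quant) (m η : ℝ) (hm : 0 < m) (hη : 0 < η) :
    ∃ m₁ m₂ : ℝ, 0 < m₁ ∧ 0 < m₂ ∧ m ≤ m₁ ∧ m ≤ m₂ ∧ m₁ - m < η ∧ m₂ - m < η ∧
      ∃ q : ℕ, 0 < q ∧ (∃ p : ℤ, Odd p ∧ Nbar m₁ * q = p) ∧ ∃ p : ℤ, Even p ∧ Nbar m₂ * q = p := by
  obtain ⟨hc, hs, -, -⟩ := hq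
  have h1 : 0 < m + η / 2 := by linarith
  have hlt : Nbar m < Nbar (m + η / 2) := hs hm h1 (by linarith)
  obtain ⟨p₁, p₂, q, hq0, hp₁, hp₂, hr1, hr2, hr3, hr4⟩ := parity_between _ _ hlt
  have hcc : ContinuousOn Nbar (Set.Icc m (m + η / 2)) :=
    hc.mono (fun x hx => lt_of_lt_of_le hm hx.1)
  have hiv := intermediate_value_Icc (show m ≤ m + η / 2 by linarith) hcc
  obtain ⟨m₁, hm₁, hN₁⟩ := hiv ⟨hr1.le, hr2.le⟩
  obtain ⟨m₂, hm₂, hN₂⟩ := hiv ⟨hr3.le, hr4.le⟩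
  have hq' : (q : ℝ) ≠ 0 := by exact_mod_cast hq0.ne'
  refine ⟨m₁, m₂, lt_of_lt_of_le hm hm₁.1, lt_of_lt_of_le hm hm₂.1, hm₁.1, hm₂.1,
    by linarith [hm₁.2], by linarith [hm₂.2], q, hq0, ⟨p₁, hp₁, ?_⟩, ⟨p₂, hp₂, ?_⟩⟩
  · rw [hN₁]
    field_simp
  · rw [hN₂]
    field_simp

theorem k_vu : S4_vu := vu4 k4_pg k4_qb k4_left k4_trans k4_out k4_thr fun m hm => thr_pos hm

theorem kd4p (hc : S7_chr) {m δ : ℝ} (hm0 : 0 < m) (hδ0 : 0 ≤ δ)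
    (hδ : δ < 1 / 2 - 1 / 2 * THR 0 m) : Kd5 δ (1 / 2 * Real.log 2 - mu4 m) := by
  intro ε hε
  have ht := k4_thr
  have hmu := k4_mu
  obtain ⟨δ', hδ1, hδ2⟩ := exists_between hδ
  have hcont : ContinuousAt (fun y => 1 / 2 - 1 / 2 * THR 0 y) m :=
    ContinuousAt.sub continuousAt_const
      (ContinuousAt.mul continuousAt_const (ht.2.2.2.2.continuousAt (Ioi_mem_nhds hm0)))
  have hev : ∀ᶠ y in 𝓝 m, δ' < 1 / 2 - 1 / 2 * THR 0 y := hcont.eventually_const_lt hδ2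
  obtain ⟨η, hη, hball⟩ := Metric.eventually_nhds_iff.1 hev
  obtain ⟨m₁, m₂, hm₁0, hm₂0, hm₁m, hm₂m, hm₁η, hm₂η, q, hq0, hQ₁, hQ₂⟩ :=
    quant5 k3_quant m η hm0 hη
  have hNR₁ : δ' < 1 / 2 - 1 / 2 * THR 0 m₁ := hball (by
    rw [Real.dist_eq, abs_of_nonneg (by linarith)]
    exact hm₁η)
  have hNR₂ : δ' < 1 / 2 - 1 / 2 * THR 0 m₂ := hball (by
    rw [Real.dist_eq, abs_of_nonneg (by linarith)]
    exact hm₂η)
  have hI₁ : mu4 m₁ ≤ mu4 m := hmu.1 hm0 hm₁0 hm₁m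
  have hI₂ : mu4 m₂ ≤ mu4 m := hmu.1 hm0 hm₂0 hm₂m
  obtain ⟨κ, hκ, r, hr, N0, hN0⟩ := star4p KRAf.kra h_qq k4_ph k4_vl k4_vr k4_vt k4_dual
    k4_near k_vu m₁ m₂ δ' (ε / 2) (mu4 m) q hm₁0 hm₂0 hNR₁ hNR₂ hI₁ hI₂ (by linarith) hq0 hQ₁ hQ₂
  have hr0 : 0 < r := hr.pos
  obtain ⟨K, hK⟩ : ∃ K : ℕ, K = q * r := ⟨_, rfl⟩
  have hKpos : 0 < K := by rw [hK]; exact Nat.mul_pos hq0 hr0
  refine kd_of5 hc hδ0 hδ1 hε hκ (x' := 1 / 2 * Real.log 2 - mu4 m) le_rfl N0 (3 * K)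
    (fun n => ∃ j : ℕ, Odd j ∧ n = q * r * j) ?_ ?_
  · intro n hn
    have hdm := Nat.div_add_mod (n - K) (2 * K)
    have hmod := Nat.mod_lt (n - K) (show 0 < 2 * K by omega)
    obtain ⟨t, ht'⟩ : ∃ t : ℕ, t = (n - K) / (2 * K) := ⟨_, rfl⟩
    rw [← ht'] at hdm
    have hKt : K * (2 * t + 1) = 2 * K * t + K := by ring
    refine ⟨K * (2 * t + 1), (n - K) % (2 * K), by omega, by omega, 2 * t + 1, ⟨t, rfl⟩, ?_⟩
    rw [hK]
  · intro n hn hj d hd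
    have h1 := hN0 n hn hj d hd
    have e1 : Real.log 2 - (1 / 2 * Real.log 2 - mu4 m) + ε / 2 =
        mu4 m + 1 / 2 * Real.log 2 + ε / 2 := by ring
    rw [e1]
    exact h1

/-- kernels with exponent `x` for the distances up to `δ n + 1` -/
def Ke5 (δ x : ℝ) : Prop := ∀ ε : ℝ, 0 < ε → ∃ κ : ℝ, 0 < κ ∧ ∃ n₀ : ℕ, ∀ n : ℕ, n₀ ≤ n →
  ∀ d : ℕ, 1 ≤ d → (d : ℝ) ≤ δ * n + 1 → ∃ G : (Fin n → Bool) → (Fin n → Bool) → ℝ,
    Good G (1 + Real.exp (-(n * κ))) (Real.exp (n * (Real.log 2 - x + ε))) ∧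
      ∀ u v, hammingDist u v < d → G u v = 0

theorem ke_of5 {δ x : ℝ} (h : ∀ ε : ℝ, 0 < ε → ∃ δ' x' : ℝ, δ < δ' ∧ x - ε ≤ x' ∧ Kd5 δ' x') :
    Ke5 δ x := by
  intro ε hε
  obtain ⟨δ', x', h1, h2, h3⟩ := h (ε / 2) (half_pos hε)
  obtain ⟨κ, hκ, n₀, hn₀⟩ := h3 (ε / 2) (half_pos hε)
  obtain ⟨n₁, hn₁⟩ := exists_nat_gt (1 / (δ' - δ))
  refine ⟨κ, hκ, max n₀ n₁, fun n hn d hd1 hd => ?_⟩
  have hn0 : n₀ ≤ n := le_trans (le_max_left _ _) hn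
  have hn1 : (n₁ : ℝ) ≤ n := by exact_mod_cast le_trans (le_max_right _ _) hn
  have hd' : (d : ℝ) ≤ δ' * n := by
    have h4 : 1 / (δ' - δ) < n := lt_of_lt_of_le hn₁ hn1
    rw [div_lt_iff₀ (by linarith)] at h4
    nlinarith
  obtain ⟨G, hG, hGd⟩ := hn₀ n hn0 d hd1 hd'
  have hn : (0 : ℝ) ≤ n := Nat.cast_nonneg n
  refine ⟨G, hG.mono le_rfl (Real.exp_le_exp.2 ?_), hGd⟩
  exact mul_le_mul_of_nonneg_left (by linarith) hn

/-- the first branch -/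
theorem ke_one5 (hc : S7_chr) (hlow : S3_low) {e : ℝ} (he : 0 < e) :
    Ke5 ((1 - A2s e / As e) / 2) ((1 - Ss e) * Real.log 2) := by
  obtain ⟨k, hk0, hk1, h1, -, h3⟩ := k6_fi e he
  have hlog : 0 < Real.log 2 := Real.log_pos (by norm_num)
  have e1 : (1 - A2s e / As e) / 2 = 1 / 2 - Ec k / Real.pi := by
    rw [h1]; ring
  have e2 : (1 - Ss e) * Real.log 2 = Real.log 2 - Ic k := by
    rw [h3, sub_mul, div_mul_cancel₀ _ hlog.ne', one_mul]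
  rw [e1, e2]
  refine ke_of5 fun ε hε => ?_
  have hcont : ContinuousAt Ic k := (Ic_cont k4_mu k4_val k5_c).continuousAt (Ioo_mem_nhds hk0 hk1)
  have e1 : ∀ᶠ x in 𝓝 k, Ic x < Ic k + ε :=
    hcont.eventually_lt continuousAt_const (by linarith)
  have e2 : ∀ᶠ x in 𝓝 k, x < 1 := eventually_lt_nhds hk1
  have e3 := (e1.and e2).filter_mono (nhdsWithin_le_nhds (s := Set.Ioi k))
  have e4 : ∀ᶠ x in 𝓝[>] k, k < x := eventually_mem_nhdsWithin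
  obtain ⟨x, ⟨hx1, hx2⟩, hx3⟩ := (e3.and e4).exists
  have hx0 : 0 < x := hk0.trans hx3
  have hE : Ec x < Ec k := Ec_anti k3_w k5_wn k5_kd ⟨hk0, hk1⟩ ⟨hx0, hx2⟩ hx3
  have hpi := Real.pi_pos
  have h5 : 1 / 2 - Ec k / Real.pi < NR (mk x) 0 := by
    unfold EFIf.mk
    rw [k5_a x hx0 hx2]
    have : Ec x / Real.pi < Ec k / Real.pi := div_lt_div_of_pos_right hE hpi
    linarith
  obtain ⟨δ', h6, h7⟩ := exists_between h5
  have h8 : 0 ≤ 1 / 2 - Ec k / Real.pi := by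
    have h9 : Ec k ≤ Real.pi / 2 := by
      have h10 : Ec k = ∫ φ in (0 : ℝ)..(Real.pi / 2), √(1 - k ^ 2 * Real.sin φ ^ 2) := rfl
      rw [h10]
      have h11 : ∀ φ : ℝ, √(1 - k ^ 2 * Real.sin φ ^ 2) ≤ 1 := by
        intro φ
        rw [Real.sqrt_le_one]
        nlinarith [mul_nonneg (sq_nonneg k) (sq_nonneg (Real.sin φ))]
      have h12 := intervalIntegral.integral_mono_on (a := 0) (b := Real.pi / 2) (μ := volume)
        (f := fun φ => √(1 - k ^ 2 * Real.sin φ ^ 2)) (g := fun _ => (1 : ℝ)) (by positivity)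
        (by
          apply Continuous.intervalIntegrable
          fun_prop)
        (by simp) (fun φ _ => h11 φ)
      refine h12.trans (le_of_eq ?_)
      simp
    have : Ec k / Real.pi ≤ 1 / 2 := by
      rw [div_le_iff₀ hpi]
      linarith
    linarith
  refine ⟨δ', Real.log 2 - I3 (mk x), h6, ?_, kd3p hc hlow (mk_pos hx0 hx2) (by linarith) h7⟩
  have h9 := k5_c x hx0 hx2
  unfold EFIf.mk
  rw [h9]
  linarith

/-- the second branch -/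
theorem ke_two5 (hc : S7_chr) {e : ℝ} (he : 0 < e) (h0 : 0 ≤ (1 - B2s e / Bs e) / 2) :
    Ke5 ((1 - B2s e / Bs e) / 2) (Ss e * Real.log 2) := by
  obtain ⟨k, hk0, hk1, -, h2, h3⟩ := k6_fi e he
  have hlog : 0 < Real.log 2 := Real.log_pos (by norm_num)
  have hpi := Real.pi_pos
  have e1 : (1 - B2s e / Bs e) / 2 = 1 / 2 - (Ec k - (1 - k ^ 2) * Kc k) / (Real.pi * k) := by
    rw [h2]
    field_simp
  have e2 : Ss e * Real.log 2 = Ic k := by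
    rw [h3, div_mul_cancel₀ _ hlog.ne']
  rw [e1] at h0
  rw [e1, e2]
  refine ke_of5 fun ε hε => ?_
  have hcont : ContinuousAt Ic k := (Ic_cont k4_mu k4_val k5_c).continuousAt (Ioo_mem_nhds hk0 hk1)
  have e1 : ∀ᶠ x in 𝓝 k, Ic k - ε < Ic x :=
    continuousAt_const.eventually_lt hcont (by linarith)
  have e2 : ∀ᶠ x in 𝓝 k, 0 < x := eventually_gt_nhds hk0
  have e3 := (e1.and e2).filter_mono (nhdsWithin_le_nhds (s := Set.Iio k))
  have e4 : ∀ᶠ x in 𝓝[<] k, x < k := eventually_mem_nhdsWithin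
  obtain ⟨x, ⟨hx1, hx2⟩, hx3⟩ := (e3.and e4).exists
  have hx0 : x < 1 := lt_trans hx3 hk1
  have hD : Dk x < Dk k := Dk_mono k3_w k5_wn k5_kd ⟨hx2, hx0⟩ ⟨hk0, hk1⟩ hx3
  have eD : ∀ y : ℝ, (Ec y - (1 - y ^ 2) * Kc y) / (Real.pi * y) = Dk y / Real.pi := by
    intro y
    unfold Dk
    rw [div_div, mul_comm Real.pi y]
  have h5 : 1 / 2 - (Ec k - (1 - k ^ 2) * Kc k) / (Real.pi * k) <
      1 / 2 - 1 / 2 * THR 0 (mk x) := by
    unfold EFIf.mk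
    rw [k5_b x hx2 hx0, eD, eD]
    have : Dk x / Real.pi < Dk k / Real.pi := div_lt_div_of_pos_right hD hpi
    linarith
  obtain ⟨δ', h6, h7⟩ := exists_between h5
  refine ⟨δ', 1 / 2 * Real.log 2 - mu4 (mk x), h6, ?_, kd4p hc (mk_pos hx2 hx0) (by linarith) h7⟩
  have h9 := k5_c x hx2 hx0
  have h10 := k4_val (mk x) (mk_pos hx2 hx0)
  have h11 : I3 (mk x) = Ic x := h9
  rw [h10, h11]
  linarith

/-- the middle point -/
theorem ke_mid5 (hc : S7_chr) : Ke5 (1 / 2 - 1 / Real.pi) (1 / 2 * Real.log 2) := by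
  refine ke_of5 fun ε hε => ?_
  have hpi := Real.pi_pos
  obtain ⟨m, hm⟩ : ∃ m : ℝ, m = (Real.pi / 4 / ε) ^ 2 := ⟨_, rfl⟩
  have hm0 : 0 < m := by rw [hm]; positivity
  have hsm : √m = Real.pi / 4 / ε := by
    rw [hm, Real.sqrt_sq (by positivity)]
  have h1 := mu4_le hm0
  have h2 : Real.pi / 4 * (1 / √m) = ε := by
    rw [hsm]
    field_simp
  rw [h2] at h1
  have h3 := THR_lt hm0
  have h4 : 1 / 2 - 1 / Real.pi < 1 / 2 - 1 / 2 * THR 0 m := by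
    have : 1 / 2 * (2 / Real.pi) = 1 / Real.pi := by ring
    linarith
  obtain ⟨δ', h6, h7⟩ := exists_between h4
  have h8 : 0 ≤ 1 / 2 - 1 / Real.pi := by
    have : 1 / Real.pi ≤ 1 / 2 := one_div_le_one_div_of_le (by norm_num) (by linarith [Real.pi_gt_three])
    linarith
  exact ⟨δ', 1 / 2 * Real.log 2 - mu4 m, h6, by linarith, kd4p hc hm0 (by linarith) h7⟩

end Pool.Agent.H2xSE
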