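import Mathlib
import Pool.Agent.H2xSE.Asym5
import Pool.Agent.H2xSR.Exact
import Pool.Agent.Y570.KP.Shift

/-!
H2xSE (helper2, MP_0430e4_lc): subexponentially many rounds of conditioning.
-/

set_option autoImplicit false
set_option linter.unusedSectionVars false

open Filter Topology

namespace Pool.Agent.H2xSE

open Finset Pool.Agent.Y570 Pool.Agent.TH41.BL Pool.Agent.H2xSR Pool.Agent.H2xSX

section

variable {X : Type} [Fintype X] [DecidableEq X] {G : X → X → ℝ} {K L : ℝ}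

/-- the operator of a kernel with small quadratic form -/
lemma spec_of_good (hG : KP.Good G K L) (hL : 0 < L) (h : X → ℝ) :
    ∑ a, (∑ c, (G a c - 1) * h c) ^ 2 ≤ L ^ 2 * ∑ c, h c ^ 2 := by
  obtain ⟨M, hM⟩ : ∃ M : X → ℝ, M = fun a => ∑ c, (G a c - 1) * h c := ⟨_, rfl⟩
  obtain ⟨N, hN⟩ : ∃ N : ℝ, N = ∑ a, M a ^ 2 := ⟨_, rfl⟩
  obtain ⟨P, hP⟩ : ∃ P : ℝ, P = ∑ c, h c ^ 2 := ⟨_, rfl⟩
  have hgoal : N ≤ L ^ 2 * P := by
    obtain ⟨Q, hQ⟩ : ∃ Q : (X → ℝ) → ℝ, Q = fun u => ∑ x, ∑ y, (G x y - 1) * u x * u y :=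
      ⟨_, rfl⟩
    have hq : ∀ u, |Q u| ≤ L * ∑ x, u x ^ 2 := fun u => by
      rw [hQ]
      exact hG.quad u
    have hcross : ∑ x, ∑ y, (G x y - 1) * M x * h y = N := by
      rw [hN]
      refine Finset.sum_congr rfl fun x _ => ?_
      have : ∀ y, (G x y - 1) * M x * h y = M x * ((G x y - 1) * h y) := fun y => by ring
      simp_rw [this]
      rw [← Finset.mul_sum, _root_.sq]
      congr 1
      rw [hM]
    have hcross2 : ∑ x, ∑ y, (G x y - 1) * h x * M y = N := by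
      rw [← hcross, Finset.sum_comm]
      refine Finset.sum_congr rfl fun x _ => Finset.sum_congr rfl fun y _ => ?_
      rw [hG.symm y x]
      ring
    have hexp : ∀ s : ℝ, Q (fun x => h x + s * M x) - Q (fun x => h x - s * M x) =
        4 * s * N := by
      intro s
      rw [hQ]
      simp only
      rw [← Finset.sum_sub_distrib]
      have e1 : ∀ x, ∑ y, (G x y - 1) * (h x + s * M x) * (h y + s * M y) -
          ∑ y, (G x y - 1) * (h x - s * M x) * (h y - s * M y) =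
          2 * s * ∑ y, (G x y - 1) * M x * h y + 2 * s * ∑ y, (G x y - 1) * h x * M y := by
        intro x
        rw [← Finset.sum_sub_distrib, Finset.mul_sum, Finset.mul_sum, ← Finset.sum_add_distrib]
        refine Finset.sum_congr rfl fun y _ => ?_
        ring
      simp_rw [e1]
      rw [Finset.sum_add_distrib, ← Finset.mul_sum, ← Finset.mul_sum, hcross, hcross2]
      ring
    have hnorm : ∀ s : ℝ, ∑ x, (h x + s * M x) ^ 2 + ∑ x, (h x - s * M x) ^ 2 =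
        2 * P + 2 * s ^ 2 * N := by
      intro s
      rw [hP, hN, ← Finset.sum_add_distrib, Finset.mul_sum, Finset.mul_sum,
        ← Finset.sum_add_distrib]
      refine Finset.sum_congr rfl fun x _ => ?_
      ring
    have h1 := (abs_le.1 (hq (fun x => h x + L⁻¹ * M x))).2
    have h2 := (abs_le.1 (hq (fun x => h x - L⁻¹ * M x))).1
    have h3 := hexp L⁻¹
    have h4 := hnorm L⁻¹
    have h5 : 4 * L⁻¹ * N ≤ L * (2 * P + 2 * L⁻¹ ^ 2 * N) := by
      rw [← h4, mul_add, ← h3]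
      linarith
    have h6 : L * (2 * P + 2 * L⁻¹ ^ 2 * N) = 2 * L * P + 2 * L⁻¹ * N := by
      field_simp
    rw [h6] at h5
    have h7 : 2 * (L⁻¹ * N) ≤ 2 * (L * P) := by linarith
    have h8 : L * (L⁻¹ * N) ≤ L * (L * P) := mul_le_mul_of_nonneg_left (by linarith) hL.le
    rw [← mul_assoc, mul_inv_cancel₀ hL.ne', one_mul] at h8
    calc N ≤ L * (L * P) := h8
      _ = L ^ 2 * P := by ring
  rw [hN, hM, hP] at hgoal
  exact hgoal

lemma kk_of_good (hG : KP.Good G K L) (hL : 0 < L) (hK : 1 ≤ K) : LS.KK G K L L := by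
  have hcol : ∀ c, ∑ a, (G a c - 1) ^ 2 ≤ L ^ 2 := by
    intro c
    have h1 := spec_of_good hG hL (fun x => if x = c then 1 else 0)
    simpa using h1
  refine ⟨hK, hL.le, hL.le, hG.nonneg, hG.le, fun a => ?_, hcol, fun h => spec_of_good hG hL h⟩
  refine le_trans (le_of_eq ?_) (hcol a)
  refine Finset.sum_congr rfl fun c _ => ?_
  rw [hG.symm a c]

lemma sml_one {s b : ℕ} {ρ : ℝ} (hK : 1 ≤ K) (hKs : K ^ s ≤ 2) (hK2 : K ≤ 2) (hL : 1 ≤ L)
    (hρ0 : 0 < ρ) (hρL : ρ * L * 10000 * (b + 1) = 1) :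
    Sml3 K L L ρ (1 / 16) (1 + 4 * (L ^ 2 * ρ)) s b 1 := by
  have hb : (0 : ℝ) ≤ b := Nat.cast_nonneg b
  have hL0 : 0 < L := by linarith
  have hK0 : 0 < K := by linarith
  have hKs0 : 0 < K ^ s := pow_pos hK0 s
  have h1 : ρ * L * 10000 ≤ 1 := by
    have : 0 ≤ ρ * L * 10000 * b := by positivity
    linarith
  have h2 : ρ * 10000 * b ≤ 1 := by
    have e1 : ρ * 10000 * b * 1 ≤ ρ * 10000 * b * L := mul_le_mul_of_nonneg_left hL (by positivity)
    have e2 : 0 ≤ ρ * L * 10000 := by positivity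
    linarith
  have h3 : (ρ * L * 10000) * (ρ * L * 10000 * b) ≤ 1 := by
    have e1 : ρ * L * 10000 * b ≤ 1 := by
      have e2 : 0 ≤ ρ * L * 10000 := by positivity
      linarith
    calc (ρ * L * 10000) * (ρ * L * 10000 * b) ≤ 1 * 1 :=
          mul_le_mul h1 e1 (by positivity) zero_le_one
      _ = 1 := one_mul 1
  refine ⟨?_, hρ0, ?_, ?_, by norm_num, ?_, ?_, ?_, ?_⟩
  · nlinarith
  · have : 0 ≤ L ^ 2 * ρ := by positivity
    linarith
  · intro u w hu hut hw hwt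
    have hu1 : u = 1 := by omega
    have hw1 : w = 1 := by omega
    subst hu1 hw1
    unfold Nuw2
    rw [if_neg one_ne_zero, Real.sq_sqrt hρ0.le]
    simp only [Nat.cast_one, pow_one, mul_one, Nat.sub_self, Nat.add_zero, pow_zero]
    have e1 : (K + 1) * (L * ρ) ≤ 3 * (L * ρ) :=
      mul_le_mul_of_nonneg_right (by linarith) (by positivity)
    have e2 : 3 * (L * ρ) ≤ 1 / 16 := by linarith
    calc (K + 1) * L * ρ = (K + 1) * (L * ρ) := by ring
      _ ≤ 1 / 16 := e1.trans e2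
  · simp only [Nat.cast_one, pow_one, mul_one, one_pow]
    have e1 : K * K ^ s ≤ 2 * 2 := mul_le_mul hK2 hKs hKs0.le (by norm_num)
    linarith
  · have e1 : (K ^ s * L) ^ 2 * ρ = (K ^ s) ^ 2 * (L ^ 2 * ρ) := by ring
    rw [e1]
    have e2 : (K ^ s) ^ 2 ≤ 2 ^ 2 := pow_le_pow_left₀ hKs0.le hKs 2
    have e3 : 0 ≤ L ^ 2 * ρ := by positivity
    nlinarith
  · have e1 : (b : ℝ) * (3 * (K ^ s * ρ)) ≤ b * (3 * (2 * ρ)) := by gcongr
    linarith
  · simp only [Nat.cast_one, pow_one, one_pow]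
    have e0 : 0 ≤ L ^ 2 * ρ := by positivity
    have e1 : 3 * (K ^ s * (1 + 1) * ((1 + 4 * (L ^ 2 * ρ)) * (2 * (K * K ^ s)))) *
        ((2 * 1) ^ (2 * 1) * (2 * (b * (3 * (K ^ s * ρ))))) ≤
        3 * (2 * (1 + 1) * ((1 + 4 * (L ^ 2 * ρ)) * (2 * (2 * 2)))) *
        ((2 * 1) ^ (2 * 1) * (2 * (b * (3 * (2 * ρ))))) := by gcongr
    refine e1.trans ?_
    have e2 : 3 * (2 * (1 + 1) * ((1 + 4 * (L ^ 2 * ρ)) * (2 * (2 * 2)))) *
        ((2 * 1) ^ (2 * 1) * (2 * (b * (3 * (2 * ρ))))) =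
        4608 / 10000 * (ρ * 10000 * b) +
          4 * 4608 / 100000000 * ((ρ * L * 10000) * (ρ * L * 10000 * b)) := by ring
    rw [e2]
    linarith

end

variable {n d a b : ℕ}

/-- pseudo-codes from kernels -/
theorem pc3_of_good {G : (Fin n → Bool) → (Fin n → Bool) → ℝ} {K L : ℝ} (hG : KP.Good G K L)
    (hK : 1 ≤ K) (hKs : K ^ (a + b) ≤ 2) (hK2 : K ≤ 2) (hL : 1 ≤ L)
    (hd : ∀ u v, hammingDist u v < d → G u v = 0) :
    ∃ y : Finset (Fin n → Bool) → ℝ, PC3 a b 1 n d y ∧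
      ∀ x, y {x} = 1 / (L * (10000 * (b + 1))) := by
  have hb : (0 : ℝ) ≤ b := Nat.cast_nonneg b
  have hL0 : 0 < L := by linarith
  obtain ⟨ρ, hρ⟩ : ∃ ρ : ℝ, ρ = 1 / (L * (10000 * (b + 1))) := ⟨_, rfl⟩
  have hρ0 : 0 < ρ := by rw [hρ]; positivity
  have hρL : ρ * L * 10000 * (b + 1) = 1 := by
    rw [hρ]
    field_simp
  have hS : Sml3 K L L ρ (1 / 16) (1 + 4 * (L ^ 2 * ρ)) (a + b) b 1 :=
    sml_one hK hKs hK2 hL hρ0 hρL
  have hkk := kk_of_good hG hL0 hK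
  refine ⟨LS.yy ρ G, ⟨?_, ?_, ?_⟩, ?_⟩
  · unfold LS.yy LS.pr
    simp
  · intro S u hu v hv huv hd'
    unfold LS.yy LS.pr
    rw [Finset.prod_eq_zero (i := (u, v)), mul_zero]
    · exact Finset.mem_offDiag.2 ⟨hu, hv, huv⟩
    · rw [hd u v hd', Real.sqrt_zero]
  · intro D E' hD hE' f hf
    exact psd_cond3 hkk hG.symm hG.diag hS D E' (by omega) hE' f hf
  · intro x
    unfold LS.yy LS.pr
    rw [← hρ]
    simp

/-- the weighted optimum -/
noncomputable def SW3 (a b t n d : ℕ) (w : (Fin n → Bool) → ℝ) : ℝ :=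
  sSup {v : ℝ | ∃ y, PC3 a b t n d y ∧ v = ∑ x, w x * y {x}}

/-- **Subexponentially many rounds.** -/
theorem rounds5 {δ x : ℝ} (h : Ke5 δ x) (ε : ℝ) (hε : 0 < ε) :
    ∃ c : ℝ, 0 < c ∧ ∃ n₀ : ℕ, ∀ n : ℕ, n₀ ≤ n → ∀ d : ℕ, 1 ≤ d → (d : ℝ) ≤ δ * n + 1 →
      ∀ a b : ℕ, (a : ℝ) ≤ Real.exp (n * c) → (b : ℝ) ≤ Real.exp (n * c) →
      ∃ y : Finset (Fin n → Bool) → ℝ, PC3 a b 1 n d y ∧ ∃ ρ : ℝ, (∀ u, y {u} = ρ) ∧
        Real.exp (n * (x - ε)) ≤ 2 ^ n * ρ := by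
  obtain ⟨κ, hκ, n₀, hn₀⟩ := h (ε / 2) (by linarith)
  obtain ⟨c, hc⟩ : ∃ c : ℝ, c = min (κ / 2) (ε / 4) := ⟨_, rfl⟩
  have hc0 : 0 < c := by
    rw [hc]
    exact lt_min (by linarith) (by linarith)
  have hcκ : c ≤ κ / 2 := by rw [hc]; exact min_le_left _ _
  have hcε : c ≤ ε / 4 := by rw [hc]; exact min_le_right _ _
  obtain ⟨n₁, hn₁⟩ := exp_large (e := κ / 2) (B := 4) (by linarith)
  obtain ⟨n₂, hn₂⟩ := exp_large (e := ε / 4) (B := 20000) (by linarith)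
  refine ⟨c, hc0, n₀ + n₁ + n₂, fun n hn d hd1 hd a b ha hb => ?_⟩
  have hnp : (0 : ℝ) ≤ n := Nat.cast_nonneg n
  obtain ⟨G, hG, hGd⟩ := hn₀ n (by omega) d hd1 hd
  have hL1 : 1 ≤ Real.exp (n * (Real.log 2 - x + ε / 2)) := KP.Good.one_le hG
  have hτ0 := Real.exp_pos (-(n * κ))
  have hE4 := hn₁ n (by omega)
  have hab : ((a + b : ℕ) : ℝ) * Real.exp (-(n * κ)) ≤ 1 / 2 := by
    have e1 : ((a + b : ℕ) : ℝ) ≤ 2 * Real.exp (n * (κ / 2)) := by
      have e2 : Real.exp (n * c) ≤ Real.exp (n * (κ / 2)) :=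
        Real.exp_le_exp.2 (mul_le_mul_of_nonneg_left hcκ hnp)
      push_cast
      linarith
    have e3 : Real.exp (n * (κ / 2)) * (Real.exp (n * (κ / 2)) * Real.exp (-(n * κ))) = 1 := by
      rw [← Real.exp_add, ← Real.exp_add]
      rw [show (n : ℝ) * (κ / 2) + (n * (κ / 2) + -(n * κ)) = 0 by ring, Real.exp_zero]
    have e4 : Real.exp (n * (κ / 2)) * Real.exp (-(n * κ)) ≤ 1 / 4 := by
      have e5 : 0 < Real.exp (n * (κ / 2)) * Real.exp (-(n * κ)) := by positivity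
      nlinarith
    calc ((a + b : ℕ) : ℝ) * Real.exp (-(n * κ)) ≤ 2 * Real.exp (n * (κ / 2)) *
          Real.exp (-(n * κ)) := mul_le_mul_of_nonneg_right e1 hτ0.le
      _ = 2 * (Real.exp (n * (κ / 2)) * Real.exp (-(n * κ))) := by ring
      _ ≤ 1 / 2 := by linarith
  have hK1 : 1 ≤ 1 + Real.exp (-(n * κ)) := by linarith
  have hK2 : 1 + Real.exp (-(n * κ)) ≤ 2 := by
    have : Real.exp (-(n * κ)) ≤ 1 := by
      rw [Real.exp_le_one_iff]
      have : 0 ≤ n * κ := by positivity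
      linarith
    linarith
  have hKs : (1 + Real.exp (-(n * κ))) ^ (a + b) ≤ 2 := by
    have e1 : 1 + Real.exp (-(n * κ)) ≤ Real.exp (Real.exp (-(n * κ))) := by
      have := Real.add_one_le_exp (Real.exp (-(n * κ)))
      linarith
    have e2 : (1 + Real.exp (-(n * κ))) ^ (a + b) ≤ Real.exp (Real.exp (-(n * κ))) ^ (a + b) :=
      pow_le_pow_left₀ (by linarith) e1 _
    rw [← Real.exp_nat_mul] at e2
    refine e2.trans ?_
    have e3 : Real.exp (((a + b : ℕ) : ℝ) * Real.exp (-(n * κ))) ≤ Real.exp (1 / 2) :=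
      Real.exp_le_exp.2 hab
    refine e3.trans ?_
    have e4 : Real.exp (1 / 2) ^ 2 = Real.exp 1 := by
      rw [← Real.exp_nat_mul]
      norm_num
    have e5 := Real.exp_one_lt_d9
    have e6 := Real.exp_pos (1 / 2)
    nlinarith
  obtain ⟨y, hy, hy1⟩ := pc3_of_good (a := a) (b := b) hG hK1 hKs hK2 hL1 hGd
  refine ⟨y, hy, _, hy1, ?_⟩
  have hLp := Real.exp_pos (n * (Real.log 2 - x + ε / 2))
  have hb0 : (0 : ℝ) ≤ b := Nat.cast_nonneg b
  rw [mul_one_div, le_div_iff₀ (by positivity)]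
  have h2 : (2 : ℝ) ^ n = Real.exp (n * Real.log 2) := by
    rw [Real.exp_nat_mul, Real.exp_log two_pos]
  have e1 : (10000 * ((b : ℝ) + 1)) ≤ Real.exp (n * (ε / 2)) := by
    have e2 : (b : ℝ) + 1 ≤ 2 * Real.exp (n * (ε / 4)) := by
      have e3 : Real.exp (n * c) ≤ Real.exp (n * (ε / 4)) :=
        Real.exp_le_exp.2 (mul_le_mul_of_nonneg_left hcε hnp)
      have e4 : 1 ≤ Real.exp (n * (ε / 4)) := Real.one_le_exp (by positivity)
      linarith
    have e3 : Real.exp (n * (ε / 2)) = Real.exp (n * (ε / 4)) * Real.exp (n * (ε / 4)) := by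
      rw [← Real.exp_add]
      congr 1
      ring
    have e4 := hn₂ n (by omega)
    have e5 := Real.exp_pos (n * (ε / 4))
    rw [e3]
    nlinarith
  calc Real.exp (n * (x - ε)) * (Real.exp (n * (Real.log 2 - x + ε / 2)) * (10000 * (b + 1)))
      ≤ Real.exp (n * (x - ε)) * (Real.exp (n * (Real.log 2 - x + ε / 2)) *
        Real.exp (n * (ε / 2))) := by
        refine mul_le_mul_of_nonneg_left (mul_le_mul_of_nonneg_left e1 hLp.le)
          (Real.exp_pos _).le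
    _ = 2 ^ n := by
        rw [h2, ← Real.exp_add, ← Real.exp_add]
        congr 1
        ring

end Pool.Agent.H2xSE
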