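import Mathlib
import Pool.Agent.H2xSE.Rounds5
import Pool.Agent.H2xSX.Fin2
import Pool.Agent.TH41.BL.DEL

/-!
H2xSE (helper2, MP_0430e4_lc): comparison with the linear program, weights.
-/

set_option autoImplicit false
set_option linter.unusedSectionVars false

open Filter Topology

namespace Pool.Agent.H2xSE

open Finset Pool.Agent.Y570 Pool.Agent.TH41.BL Pool.Agent.H2xSR Pool.Agent.H2xSX

variable {a b t n d : ℕ} {y : Finset (Fin n → Bool) → ℝ}

/-- comparison with the linear program -/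
lemma le_lp3 (hc : S7_chr) (ha : 1 ≤ a) (ht : 1 ≤ t) (h : PC3 a b t n d y)
    {l : ℕ → ℝ} (hl : Feas n d l) : ∑ x, y {x} ≤ Vl n l / l 0 := by
  obtain ⟨m, hm⟩ : ∃ m : ℝ, m = ∑ x, y {x} := ⟨_, rfl⟩
  rw [← hm, le_div_iff₀ hl.2.1]
  have hy1 : ∀ x, 0 ≤ y {x} := by
    intro x
    have h1 := h.nonneg' ht ∅ (by simp) x
    simpa using h1
  have hm0 : 0 ≤ m := by
    rw [hm]
    exact Finset.sum_nonneg fun x _ => hy1 x
  have hVl0 : 0 ≤ Vl n l := by
    unfold Vl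
    exact Finset.sum_nonneg fun j _ => mul_nonneg (hl.1 j) (Nat.cast_nonneg _)
  rcases hm0.eq_or_lt with h0 | h0
  · rw [← h0, zero_mul]
    exact hVl0
  obtain ⟨Y, hY⟩ : ∃ Y : (Fin n → Bool) → (Fin n → Bool) → ℝ, Y = fun x z => y ({x} ∪ {z}) :=
    ⟨_, rfl⟩
  have hpsd : ∀ (c : ℝ) (b : (Fin n → Bool) → ℝ), 0 ≤ c ^ 2 + 2 * c * ∑ x, b x * y {x} +
      ∑ x, ∑ z, b x * b z * Y x z := by
    intro c b
    have h1 := h.form ht ∅ (by simp) (fun s => s.elim c b)
    simp only [Finset.empty_union, Fintype.sum_option, Option.toFinset_none,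
      Option.toFinset_some, Option.elim_none, Option.elim_some, Finset.union_empty, h.one] at h1
    refine h1.trans (le_of_eq ?_)
    rw [hY, Finset.mul_sum, Finset.sum_add_distrib]
    have e1 : ∑ x, c * b x * y {x} = ∑ x, b x * c * y {x} :=
      Finset.sum_congr rfl fun x _ => by ring
    have e2 : ∑ x, 2 * c * (b x * y {x}) = ∑ x, b x * c * y {x} + ∑ x, b x * c * y {x} := by
      rw [← Finset.sum_add_distrib]
      exact Finset.sum_congr rfl fun x _ => by ring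
    rw [e1, e2]
    ring
  -- the sum of all entries
  have hsq : m ^ 2 ≤ ∑ x, ∑ z, Y x z := by
    have h1 := hpsd (-m) (fun _ => 1)
    simp only [one_mul] at h1
    rw [← hm] at h1
    nlinarith
  -- the nonnegativity
  have hY0 : ∀ x z, 0 ≤ Y x z := by
    intro x z
    have h1 := h.nonneg' ht {x} (by simpa using ha) z
    rw [hY]
    have e1 : ({x} : Finset (Fin n → Bool)) ∪ {z} = insert z {x} := by
      ext u
      simp [or_comm]
    change 0 ≤ y ({x} ∪ {z})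
    rw [e1]
    exact h1
  have hYd : ∀ x z, x ≠ z → hammingDist x z < d → Y x z = 0 := by
    intro x z hxz hd
    rw [hY]
    exact h.dist _ x (by simp) z (by simp) hxz hd
  have hYx : ∀ x, Y x x = y {x} := by
    intro x
    rw [hY]
    simp
  -- the characters
  have hch : ∀ j, 0 ≤ ∑ x, ∑ z, (kr n j (hammingDist x z) : ℝ) * Y x z := by
    intro j
    have e1 : ∑ x, ∑ z, (kr n j (hammingDist x z) : ℝ) * Y x z =
        ∑ s ∈ Finset.powersetCard j (Finset.univ : Finset (Fin n)),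
          ∑ x, ∑ z, PK9f.chi s x * PK9f.chi s z * Y x z := by
      rw [Finset.sum_comm (s := Finset.powersetCard j (Finset.univ : Finset (Fin n)))]
      refine Finset.sum_congr rfl fun x _ => ?_
      rw [Finset.sum_comm (s := Finset.powersetCard j (Finset.univ : Finset (Fin n)))]
      refine Finset.sum_congr rfl fun z _ => ?_
      rw [PK9f.kr_sum hc, Finset.sum_mul]
    rw [e1]
    refine Finset.sum_nonneg fun s _ => ?_
    have h1 := hpsd 0 (PK9f.chi s)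
    have e2 : (0 : ℝ) ^ 2 + 2 * 0 * ∑ x, PK9f.chi s x * y {x} = 0 := by ring
    rw [e2, zero_add] at h1
    exact h1
  have hk0 : ∀ w, (kr n 0 w : ℝ) = 1 := by
    intro w
    simp [kr]
  have h3 : l 0 * ∑ x, ∑ z, Y x z ≤
      ∑ j ∈ Finset.range (n + 1), l j * ∑ x, ∑ z, (kr n j (hammingDist x z) : ℝ) * Y x z := by
    rw [Finset.sum_range_succ']
    simp only [hk0, one_mul]
    have h4 : 0 ≤ ∑ j ∈ Finset.range n, l (j + 1) *
        ∑ x, ∑ z, (kr n (j + 1) (hammingDist x z) : ℝ) * Y x z :=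
      Finset.sum_nonneg fun j _ => mul_nonneg (hl.1 _) (hch _)
    linarith
  have h5 : ∑ j ∈ Finset.range (n + 1), l j * ∑ x, ∑ z, (kr n j (hammingDist x z) : ℝ) * Y x z =
      ∑ x, ∑ z, (∑ j ∈ Finset.range (n + 1), l j * (kr n j (hammingDist x z) : ℝ)) * Y x z := by
    simp_rw [Finset.mul_sum, Finset.sum_mul]
    rw [Finset.sum_comm]
    refine Finset.sum_congr rfl fun x _ => ?_
    rw [Finset.sum_comm]
    refine Finset.sum_congr rfl fun z _ => Finset.sum_congr rfl fun j _ => ?_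
    ring
  have h6 : ∑ x, ∑ z, (∑ j ∈ Finset.range (n + 1), l j * (kr n j (hammingDist x z) : ℝ)) * Y x z ≤
      m * Vl n l := by
    rw [hm, Finset.sum_mul]
    refine Finset.sum_le_sum fun x _ => ?_
    rw [← Finset.add_sum_erase _ _ (Finset.mem_univ x)]
    have h7 : ∑ j ∈ Finset.range (n + 1), l j * (kr n j (hammingDist x x) : ℝ) = Vl n l := by
      rw [FINf.Vl_eq, hammingDist_self]
    rw [h7, hYx]
    have h8 : ∑ z ∈ Finset.univ.erase x,
        (∑ j ∈ Finset.range (n + 1), l j * (kr n j (hammingDist x z) : ℝ)) * Y x z ≤ 0 := by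
      refine Finset.sum_nonpos fun z hz => ?_
      rw [Finset.mem_erase] at hz
      by_cases hd : hammingDist x z < d
      · rw [hYd x z hz.1.symm hd, mul_zero]
      · exact mul_nonpos_of_nonpos_of_nonneg
          (hl.2.2 _ (by omega) (PK9f.hd_le x z)) (hY0 x z)
    linarith
  rw [h5] at h3
  have h9 : l 0 * m ^ 2 ≤ l 0 * ∑ x, ∑ z, Y x z := mul_le_mul_of_nonneg_left hsq hl.2.1.le
  have h10 : m * (m * l 0) ≤ m * Vl n l := by
    calc m * (m * l 0) = l 0 * m ^ 2 := by ring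
      _ ≤ m * Vl n l := h9.trans (h3.trans h6)
  exact le_of_mul_le_mul_left h10 h0

lemma PC3.map (σ : Equiv.Perm (Fin n → Bool))
    (hσ : ∀ u v, hammingDist (σ u) (σ v) = hammingDist u v) (h : PC3 a b t n d y) :
    PC3 a b t n d (fun S => y (S.map σ.toEmbedding)) := by
  refine ⟨by simpa using h.one, ?_, ?_⟩
  · intro S u hu v hv huv hlt
    refine h.dist _ (σ u) ?_ (σ v) ?_ (fun he => huv (σ.injective he)) (by rwa [hσ])
    · exact Finset.mem_map_of_mem σ.toEmbedding hu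
    · exact Finset.mem_map_of_mem σ.toEmbedding hv
  · intro D E hD hE f hf
    have h1 := h.psd (D.map σ.toEmbedding) (E.map σ.toEmbedding)
      (by rwa [Finset.card_map]) (by rwa [Finset.card_map])
      (fun S => f (S.map σ.symm.toEmbedding)) (fun S hS => hf _ (by rwa [Finset.card_map]))
    refine h1.trans (le_of_eq ?_)
    obtain ⟨τ, hτ⟩ : ∃ τ : Equiv.Perm (Finset (Fin n → Bool)), ∀ S, τ S = S.map σ.toEmbedding :=
      ⟨Equiv.finsetCongr σ, fun S => rfl⟩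
    rw [← Equiv.sum_comp τ]
    refine Finset.sum_congr rfl fun S _ => ?_
    rw [← Equiv.sum_comp τ]
    refine Finset.sum_congr rfl fun T _ => ?_
    have e1 : ∀ S : Finset (Fin n → Bool), (τ S).map σ.symm.toEmbedding = S := by
      intro S
      rw [hτ]
      ext x
      simp
    rw [e1, e1, KP.cond_map, hτ, hτ, Finset.map_union]

lemma bddW (ht : 1 ≤ t) {w : (Fin n → Bool) → ℝ} (hw : ∀ x, 0 ≤ w x) :
    BddAbove {v : ℝ | ∃ y, PC3 a b t n d y ∧ v = ∑ x, w x * y {x}} := by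
  obtain ⟨B, hB⟩ := bdd3 (a := a) (b := b) (n := n) (d := d) ht
  refine ⟨(∑ x, w x) * B, ?_⟩
  rintro v ⟨y, hy, rfl⟩
  have h1 : ∑ x, y {x} ≤ B := hB ⟨y, hy, rfl⟩
  have hy1 : ∀ x, 0 ≤ y {x} := by
    intro x
    have h1 := hy.nonneg' ht ∅ (by simp) x
    simpa using h1
  rw [Finset.sum_mul]
  refine Finset.sum_le_sum fun x _ => mul_le_mul_of_nonneg_left ?_ (hw x)
  exact (Finset.single_le_sum (fun z _ => hy1 z) (Finset.mem_univ x)).trans h1

/-- the uniform weights are optimal -/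
theorem weight3 (ht : 1 ≤ t) {w : (Fin n → Bool) → ℝ} (hw : ∀ x, 0 ≤ w x)
    (h : PC3 a b t n d y) :
    (∑ x, y {x}) * ∑ x, w x ≤ 2 ^ n * SW3 a b t n d w := by
  have h1 : ∀ u : Fin n → Bool, ∑ x, w x * y {KP.tr' u x} ≤ SW3 a b t n d w := by
    intro u
    refine le_csSup (bddW ht hw) ⟨_, PC3.map (KP.tr' u) (KP.tr'_dist u) h, ?_⟩
    refine Finset.sum_congr rfl fun x _ => ?_
    rw [Finset.map_singleton]
    rfl
  have h2 := Finset.sum_le_sum fun (u : Fin n → Bool) (_ : u ∈ Finset.univ) => h1 u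
  rw [Finset.sum_comm, Finset.sum_const, nsmul_eq_mul] at h2
  have h3 : ∀ x, ∑ u, w x * y {KP.tr' u x} = w x * ∑ z, y {z} := by
    intro x
    rw [← Finset.mul_sum]
    congr 1
    exact KP.sum_tr' (fun z => y {z}) x
  rw [Finset.sum_congr rfl fun x _ => h3 x, ← Finset.sum_mul] at h2
  have h4 : ((Finset.univ : Finset (Fin n → Bool)).card : ℝ) = 2 ^ n := by
    rw [Finset.card_univ, Fintype.card_fun, Fintype.card_bool, Fintype.card_fin]
    push_cast
    ring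
  rw [h4] at h2
  linarith

lemma weight_SO (ht : 1 ≤ t) {w : (Fin n → Bool) → ℝ} (hw : ∀ x, 0 ≤ w x) :
    SO3 a b t n d * ∑ x, w x ≤ 2 ^ n * SW3 a b t n d w := by
  have hs : 0 ≤ ∑ x, w x := Finset.sum_nonneg fun x _ => hw x
  rcases hs.eq_or_lt with h0 | h0
  · rw [← h0, mul_zero]
    have h1 := weight3 ht hw (PC3.of_pc (LS.pc_code (s := a + b) (t := t) (n := n) (d := d) ∅
      (by simp)))
    refine le_trans (le_of_eq ?_) h1
    rw [← h0, mul_zero]
  · rw [← le_div_iff₀ h0]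
    unfold SO3
    refine csSup_le (nonempty3 _ _ _ _ _) ?_
    rintro v ⟨y, hy, rfl⟩
    rw [le_div_iff₀ h0]
    exact weight3 ht hw hy

lemma SO3_le_lp (hc : S7_chr) (ha : 1 ≤ a) (ht : 1 ≤ t) (hd : 1 ≤ d) :
    SO3 a b t n d ≤ FINf.LPv n d := by
  unfold SO3
  refine csSup_le (nonempty3 _ _ _ _ _) ?_
  rintro v ⟨y, hy, rfl⟩
  refine le_csInf ⟨_, _, DELf.feas_one hd, rfl⟩ ?_
  rintro v ⟨l, hl, rfl⟩
  exact le_lp3 hc ha ht hy hl

lemma SO_le_SO3 (ht : 1 ≤ t) : LS.SO (a + b) t n d ≤ SO3 a b t n d := by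
  unfold LS.SO SO3
  refine csSup_le_csSup (bdd3 ht) (LS.nonempty _ _ _ _) ?_
  rintro v ⟨y, hy, rfl⟩
  exact ⟨y, PC3.of_pc hy, rfl⟩

/-- monotonicity -/
lemma SO3_anti {a' b' t' : ℕ} (ha : a ≤ a') (hb : b ≤ b') (ht : 1 ≤ t) (htt : t ≤ t') :
    SO3 a' b' t' n d ≤ SO3 a b t n d := by
  unfold SO3
  refine csSup_le_csSup (bdd3 ht) (nonempty3 _ _ _ _ _) ?_
  rintro v ⟨y, hy, rfl⟩
  exact ⟨y, ⟨hy.one, hy.dist, fun D E hD hE f hf => hy.psd D E (hD.trans ha) (hE.trans hb) f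
    fun S hS => hf S (lt_of_le_of_lt htt hS)⟩, rfl⟩

/-- the exponent of the linear program is reached for subexponentially many rounds -/
theorem SO3_lower5 {δ θ : ℝ} (h0 : 0 < δ) (h : Ke5 δ (θ * Real.log 2)) (ε : ℝ) (hε : 0 < ε) :
    ∃ c : ℝ, 0 < c ∧ ∃ n₀ : ℕ, ∀ n : ℕ, n₀ ≤ n → ∀ a b : ℕ, (a : ℝ) ≤ 2 ^ (c * n) →
      (b : ℝ) ≤ 2 ^ (c * n) → (2 : ℝ) ^ ((θ - ε) * n) ≤ SO3 a b 1 n ⌈δ * n⌉₊ := by
  have hlog : 0 < Real.log 2 := Real.log_pos (by norm_num)
  obtain ⟨c, hc, n₀, hn₀⟩ := rounds5 h (ε * Real.log 2) (by positivity)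
  refine ⟨c / Real.log 2, by positivity, n₀ + 1, fun n hn a b ha hb => ?_⟩
  have hnR : (0 : ℝ) < n := by exact_mod_cast (by omega : 0 < n)
  have hd1 : 1 ≤ ⌈δ * n⌉₊ := Nat.one_le_iff_ne_zero.2 (Nat.ceil_pos.2 (by positivity)).ne'
  have hd2 : (⌈δ * n⌉₊ : ℝ) ≤ δ * n + 1 := (Nat.ceil_lt_add_one (by positivity)).le
  have e0 : (2 : ℝ) ^ (c / Real.log 2 * n) = Real.exp (n * c) := by
    rw [Real.rpow_def_of_pos (by norm_num)]
    congr 1
    field_simp
  rw [e0] at ha hb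
  obtain ⟨y, hy, ρ, hρ, hv⟩ := hn₀ n (by omega) _ hd1 hd2 a b ha hb
  have h1 : ∑ u, y {u} ≤ SO3 a b 1 n ⌈δ * n⌉₊ := le_csSup (bdd3 le_rfl) ⟨y, hy, rfl⟩
  refine le_trans ?_ h1
  simp_rw [hρ]
  rw [Finset.sum_const, Finset.card_univ, Fintype.card_fun, Fintype.card_bool, Fintype.card_fin,
    nsmul_eq_mul, Nat.cast_pow, Nat.cast_ofNat]
  refine le_trans (le_of_eq ?_) hv
  rw [Real.rpow_def_of_pos (by norm_num)]
  congr 1
  ring

end Pool.Agent.H2xSE
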