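import Mathlib
import Pool.Agent.H2xSE.Stm
import Pool.Agent.TH41.BL.TR3

/-!
H2xSE (helper2, MP_0430e4_lc), piece P1: the test function `vN` from below (mirror of
`TH41/BL/TR3.lean`).
-/

set_option autoImplicit false

open MeasureTheory Filter Topology

namespace Pool.Agent.H2xSE.Low3f

open Pool.Agent.TH41.BL

open Pool.Agent.TH41.LP.VVf

open Pool.Agent.TH41.BL.TRMf (SW pos_seg seg_bound re_div_two_pi)

open Pool.Agent.TH41.BL.TR3f

/-- the reflection of the segment -/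
theorem SW_neg (Y : ℂ → ℂ) (T σ ρ : ℝ) :
    SW (fun s => Y (-s)) T (-σ) (-ρ) = -SW Y T σ ρ := by
  unfold SW
  have h := intervalIntegral.integral_comp_neg (a := -T) (b := T)
    (fun t : ℝ => Y (-(((-σ : ℝ) : ℂ) + t * Complex.I)) / (((-σ : ℝ) : ℂ) + t * Complex.I) *
      Complex.exp (-(((-σ : ℝ) : ℂ) + t * Complex.I) * ((-ρ : ℝ) : ℂ)))
  rw [neg_neg] at h
  rw [← h, ← intervalIntegral.integral_neg]
  apply intervalIntegral.integral_congr
  intro t _
  simp only
  have e1 : -(((-σ : ℝ) : ℂ) + ((-t : ℝ) : ℂ) * Complex.I) = (σ : ℂ) + t * Complex.I := by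
    push_cast
    ring
  have e2 : (((-σ : ℝ) : ℂ) + ((-t : ℝ) : ℂ) * Complex.I) = -((σ : ℂ) + t * Complex.I) := by
    push_cast
    ring
  rw [e1, e2]
  have e3 : (σ + t * Complex.I : ℂ) * ((-ρ : ℝ) : ℂ) = -(σ + t * Complex.I : ℂ) * ρ := by
    push_cast
    ring
  rw [e3, div_neg, neg_mul]

/-- `pos_seg` on the right -/
theorem pos_seg' {Y : ℂ → ℂ} {σ ρ V y0 T : ℝ} (hσ : 0 < σ)
    (hVσ : √V / 5 ≤ σ) (hV : 0 < V) (hy0 : 0 < y0) (hT : 3 * √V ≤ T)
    (h1 : ∀ t : ℝ, |t| ≤ T → ‖Y (σ + t * Complex.I)‖ ≤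
      101 / 100 * y0 * Real.exp (-(49 / 100) * t ^ 2 / V))
    (h2 : ∀ t : ℝ, |t| ≤ 3 * √V → ∃ m θ : ℝ, |θ| ≤ 1 / 1000 ∧
      99 / 100 * Real.exp (-(51 / 100) * t ^ 2 / V) ≤ m ∧
      Y (σ + t * Complex.I) = (y0 : ℂ) * (m : ℂ) *
        Complex.exp (((ρ * t + θ : ℝ) : ℂ) * Complex.I)) :
    0 ≤ (SW Y T σ ρ).re := by
  have e1 : ∀ t : ℝ, -(((-σ : ℝ) : ℂ) + (t : ℂ) * Complex.I) =
      (σ : ℂ) + ((-t : ℝ) : ℂ) * Complex.I := by
    intro t
    push_cast
    ring
  have h := pos_seg (Y := fun s => Y (-s)) (σ := -σ) (ρ := -ρ) (V := V) (y0 := y0) (T := T)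
    (by linarith) (by linarith) hV hy0 hT
    (by
      intro t ht
      rw [e1 t]
      have := h1 (-t) (by rwa [abs_neg])
      rwa [neg_sq] at this)
    (by
      intro t ht
      obtain ⟨m, θ, h3, h4, h5⟩ := h2 (-t) (by rwa [abs_neg])
      refine ⟨m, θ, h3, ?_, ?_⟩
      · rwa [neg_sq] at h4
      · rw [e1 t, h5]
        congr 3
        push_cast
        ring)
  rw [SW_neg, Complex.neg_re] at h
  linarith

/-- `vN_SW` from below -/
theorem vN_SW' {m C κ ε : ℝ} {n w : ℕ} (hc : Cn m C κ ε) {c : ℝ} (h0 : 0 < c)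
    (h1 : c ≤ κ) (h2 : C * c ≤ ε * (1 - Real.cos (1 / 1000)) / 2) :
    ((SW (Y3 m n ε) (1 / 1000) c (w : ℝ)).re -
      7 / (1 - Real.cos (1 / 1000)) * Real.exp (-(n * ε * (1 - Real.cos (1 / 1000)) / 2))) /
      (2 * Real.pi) ≤ (vN m n w ε c 0).re := by
  have hpi3 := Real.pi_gt_three
  have hpi : Real.pi < 3.15 := Real.pi_lt_d2
  have hd := d_pos
  set E := Real.exp (-(n * ε * (1 - Real.cos (1 / 1000)) / 2)) / (1 - Real.cos (1 / 1000))
    with hE
  have hE0 : 0 ≤ E := by positivity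
  have hcont := J3_cont (n := n) (w := w) hc h0 h1
  have hsplit : (∫ φ in (-Real.pi)..Real.pi, J3 m n w ε c φ) =
      (∫ φ in (-Real.pi)..(-(1 / 1000 : ℝ)), J3 m n w ε c φ) +
      (∫ φ in (-(1 / 1000 : ℝ))..(1 / 1000), J3 m n w ε c φ) +
      ∫ φ in (1 / 1000 : ℝ)..Real.pi, J3 m n w ε c φ := by
    rw [intervalIntegral.integral_add_adjacent_intervals (hcont.intervalIntegrable _ _)
      (hcont.intervalIntegrable _ _), intervalIntegral.integral_add_adjacent_intervals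
      (hcont.intervalIntegrable _ _) (hcont.intervalIntegrable _ _)]
  have hA : ‖∫ φ in (-Real.pi)..(-(1 / 1000 : ℝ)), J3 m n w ε c φ‖ ≤ E * Real.pi := by
    have h3 := intervalIntegral.norm_integral_le_of_norm_le_const (a := -Real.pi)
      (b := -(1 / 1000 : ℝ)) (f := J3 m n w ε c) (C := E) (by
        intro φ hφ
        rw [Set.uIoc_of_le (by linarith)] at hφ
        apply J3_outer hc h0 h1 h2
        rw [← Real.cos_neg φ]
        exact Real.cos_le_cos_of_nonneg_of_le_pi (by norm_num) (by linarith [hφ.1])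
          (by linarith [hφ.2]))
    refine h3.trans (mul_le_mul_of_nonneg_left ?_ hE0)
    rw [abs_of_nonneg (by linarith)]
    linarith
  have hB : ‖∫ φ in (1 / 1000 : ℝ)..Real.pi, J3 m n w ε c φ‖ ≤ E * Real.pi := by
    have h3 := intervalIntegral.norm_integral_le_of_norm_le_const (a := (1 / 1000 : ℝ))
      (b := Real.pi) (f := J3 m n w ε c) (C := E) (by
        intro φ hφ
        rw [Set.uIoc_of_le (by linarith)] at hφ
        apply J3_outer hc h0 h1 h2
        exact Real.cos_le_cos_of_nonneg_of_le_pi (by norm_num) hφ.2 hφ.1.le)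
    refine h3.trans (mul_le_mul_of_nonneg_left ?_ hE0)
    rw [abs_of_nonneg (by linarith)]
    linarith
  rw [vN_J, re_div_two_pi, hsplit, J3_mid hc h0, Complex.add_re, Complex.add_re]
  apply div_le_div_of_nonneg_right _ (by positivity)
  have h3 := neg_le_of_abs_le ((Complex.abs_re_le_norm _).trans hA)
  have h4 := neg_le_of_abs_le ((Complex.abs_re_le_norm _).trans hB)
  have h5 : E * Real.pi ≤ E * 3.15 := mul_le_mul_of_nonneg_left hpi.le hE0
  have h6 : 7 / (1 - Real.cos (1 / 1000)) *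
      Real.exp (-(n * ε * (1 - Real.cos (1 / 1000)) / 2)) = 7 * E := by
    rw [hE]
    ring
  rw [h6]
  linarith

theorem exp_upper {x : ℝ} (h0 : 0 ≤ x) (h1 : x ≤ 1) :
    Real.exp x ≤ 1 + x + x ^ 2 / 2 + 2 / 9 * x ^ 3 := by
  have h := Real.exp_bound (x := x) (by rw [abs_of_nonneg h0]; exact h1) (n := 3)
    (by norm_num)
  have h2 := (abs_le.1 h).2
  rw [abs_of_nonneg h0] at h2
  simp only [Finset.sum_range_succ, Finset.sum_range_zero, Nat.factorial] at h2
  norm_num at h2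
  linarith

/-- the bound on the left of the origin -/
theorem caseL {m C κ ε : ℝ} {n w : ℕ} (hc : Cn m C κ ε) (hn0 : 0 < n) {r : ℝ} (hr : 0 < r)
    (hrV : r ^ 2 = 1 / (n * ε)) (hrκ : r ≤ κ) (hr1 : r ≤ 1 / 60000)
    (hr3 : r ≤ ε / (108000 * C))
    (hcase : (w : ℝ) < n * ((Nf m ((r / 5 : ℝ))).re - ε * Real.exp (-(r / 5)))) :
    ‖SW (Y3 m n ε) (1 / 1000) (-(9 / 10 * r)) (w : ℝ)‖ ≤
      101 / 100 * (1823 / 1000) * (1003 / 1000) * (2533 / 1000) / (9 / 10) := by
  have hε := hc.c5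
  have hC := hc.c1
  have hn' : (0 : ℝ) < n := by exact_mod_cast hn0
  have hw0 : (0 : ℝ) ≤ w := Nat.cast_nonneg w
  have hV : (0 : ℝ) < 1 / (n * ε) := by positivity
  have hsq : √(1 / (n * ε)) = r := by rw [← hrV, Real.sqrt_sq hr.le]
  have hnr : n * ε * r ^ 2 = 1 := by
    rw [hrV]
    field_simp
  have hc0 : 0 < 9 / 10 * r := by positivity
  have hcabs : |-(9 / 10 * r)| ≤ κ := by
    rw [abs_neg, abs_of_pos hc0]
    linarith
  have h2 := seg_bound (Y := Y3 m n ε) (c := -(9 / 10 * r)) (ρ := (w : ℝ)) (T := 1 / 1000)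
    (by norm_num) (neg_ne_zero.2 hc0.ne') hV (norm_nonneg (Y3 m n ε (-(9 / 10 * r) : ℝ)))
    (fun t ht => Y3_upper hc n hcabs t ht hn0)
  rw [abs_neg, abs_of_pos hc0] at h2
  -- the size on the real axis
  have hq7 := (abs_le.1 (hc.pb.p7 (-(9 / 10 * r)) hcabs).2).2
  rw [abs_neg, abs_of_pos hc0] at hq7
  have hq8 := (abs_le.1 (hc.pb.p8 (r / 5) (by
    rw [abs_of_pos (by positivity)]; linarith))).2
  have hsmall : n * C * r ^ 3 ≤ 1 / 108000 := by
    have h3 : n * C * r ^ 3 = (n * ε * r ^ 2) * (C * r / ε) := by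
      field_simp
    rw [h3, hnr]
    have h4 : C * r / ε ≤ 1 / 108000 := by
      rw [div_le_iff₀ hε]
      calc C * r ≤ C * (ε / (108000 * C)) := mul_le_mul_of_nonneg_left hr3 hC.le
        _ = 1 / 108000 * ε := by field_simp
    linarith
  have he1 : 1 - r / 5 ≤ Real.exp (-(r / 5)) := by
    have := Real.add_one_le_exp (-(r / 5))
    linarith
  have he2 := exp_upper (x := 9 / 10 * r) hc0.le (by linarith)
  have hg : (w : ℝ) ≤ n * (NR m 0) + n * (C * r ^ 2 / 25) - n * ε * (1 - r / 5) := by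
    have h3 : (Nf m ((r / 5 : ℝ))).re ≤ NR m 0 + C * r ^ 2 / 25 := by
      have e : C * (r / 5) ^ 2 = C * r ^ 2 / 25 := by ring
      rw [e] at hq8
      linarith
    have h4 : ε * (1 - r / 5) ≤ ε * Real.exp (-(r / 5)) :=
      mul_le_mul_of_nonneg_left he1 hε.le
    have h5 : n * ((Nf m ((r / 5 : ℝ))).re - ε * Real.exp (-(r / 5))) ≤
        n * (NR m 0 + C * r ^ 2 / 25 - ε * (1 - r / 5)) :=
      mul_le_mul_of_nonneg_left (by linarith) hn'.le
    linarith
  have h5 : ‖Y3 m n ε (-(9 / 10 * r) : ℝ)‖ * Real.exp (-(-(9 / 10 * r)) * (w : ℝ)) ≤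
      Real.exp (3 / 5) * (1003 / 1000) := by
    rw [Y3_norm0]
    have hH := (Hf_norm (s := ((-(9 / 10 * r) : ℝ) : ℂ)) (by
      rw [Complex.norm_real, Real.norm_eq_abs]
      exact (hcabs.trans hc.c3).trans (by norm_num))).2
    calc Real.exp (n * (Ph m (-(9 / 10 * r) : ℝ)).re +
          n * ε * (Real.exp (-(-(9 / 10 * r))) - 1)) * ‖Hf (-(9 / 10 * r) : ℝ)‖ *
          Real.exp (-(-(9 / 10 * r)) * (w : ℝ))
        ≤ Real.exp (n * (Ph m (-(9 / 10 * r) : ℝ)).re +
          n * ε * (Real.exp (-(-(9 / 10 * r))) - 1)) * (1003 / 1000) *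
          Real.exp (-(-(9 / 10 * r)) * (w : ℝ)) := by gcongr
      _ = Real.exp (n * (Ph m (-(9 / 10 * r) : ℝ)).re +
          n * ε * (Real.exp (-(-(9 / 10 * r))) - 1) + -(-(9 / 10 * r)) * (w : ℝ)) *
          (1003 / 1000) := by
          rw [Real.exp_add _ (-(-(9 / 10 * r)) * (w : ℝ))]
          ring
      _ ≤ Real.exp (3 / 5) * (1003 / 1000) := by
          refine mul_le_mul_of_nonneg_right ?_ (by norm_num)
          rw [Real.exp_le_exp, neg_neg]
          have h6 : (9 / 10 * r) * (w : ℝ) ≤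
              (9 / 10 * r) * (n * (NR m 0) + n * (C * r ^ 2 / 25) - n * ε * (1 - r / 5)) :=
            mul_le_mul_of_nonneg_left hg (by positivity)
          have h7 : (9 / 10 * r) * (n * (NR m 0) + n * (C * r ^ 2 / 25) - n * ε * (1 - r / 5)) =
              (9 / 10 * r) * (n * NR m 0) + 36 / 1000 * (n * C * r ^ 3) -
              n * ε * (9 / 10 * r) + 18 / 100 * (n * ε * r ^ 2) := by ring
          rw [h7, hnr] at h6
          have h8 : (n : ℝ) * (Ph m (-(9 / 10 * r) : ℝ)).re ≤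
              n * (NR m 0 * (-(9 / 10 * r)) + C * (9 / 10 * r) ^ 3) :=
            mul_le_mul_of_nonneg_left (by linarith) hn'.le
          have h9 : (n : ℝ) * ε * (Real.exp (9 / 10 * r) - 1) ≤
              n * ε * (9 / 10 * r + (9 / 10 * r) ^ 2 / 2 + 2 / 9 * (9 / 10 * r) ^ 3) :=
            mul_le_mul_of_nonneg_left (by linarith) (by positivity)
          have h10 : (n : ℝ) * ε * (9 / 10 * r + (9 / 10 * r) ^ 2 / 2 +
              2 / 9 * (9 / 10 * r) ^ 3) = n * ε * (9 / 10 * r) +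
              405 / 1000 * (n * ε * r ^ 2) + 162 / 1000 * (n * ε * r ^ 2) * r := by ring
          rw [h10, hnr] at h9
          have h11 : (n : ℝ) * (NR m 0 * (-(9 / 10 * r)) + C * (9 / 10 * r) ^ 3) =
              -((9 / 10 * r) * (n * NR m 0)) + 729 / 1000 * (n * C * r ^ 3) := by ring
          rw [h11] at h8
          linarith
  have h6 : Real.exp (3 / 5) * (1003 / 1000) ≤ 1823 / 1000 * (1003 / 1000) :=
    mul_le_mul_of_nonneg_right num_exp (by norm_num)
  have h6' := h5.trans h6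
  have h7 := num_pi_sqrt hV
  rw [hsq] at h7
  refine h2.trans ?_
  calc 101 / 100 * ‖Y3 m n ε (-(9 / 10 * r) : ℝ)‖ * Real.exp (-(-(9 / 10 * r)) * (w : ℝ)) /
        (9 / 10 * r) * √(Real.pi / ((49 / 100) / (1 / (n * ε))))
      = 101 / 100 * (‖Y3 m n ε (-(9 / 10 * r) : ℝ)‖ * Real.exp (-(-(9 / 10 * r)) * (w : ℝ))) /
        (9 / 10 * r) * √(Real.pi / ((49 / 100) / (1 / (n * ε)))) := by ring
    _ ≤ 101 / 100 * (1823 / 1000 * (1003 / 1000)) / (9 / 10 * r) * (2533 / 1000 * r) := by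
        gcongr
    _ = 101 / 100 * (1823 / 1000) * (1003 / 1000) * (2533 / 1000) / (9 / 10) := by field_simp

/-- the middle case -/
theorem caseM {m C κ ε : ℝ} {n w : ℕ} (hc : Cn m C κ ε) (hn0 : 0 < n) {r : ℝ} (hr : 0 < r)
    (hrV : r ^ 2 = 1 / (n * ε)) (hrκ : r ≤ κ) (hr1 : r ≤ 1 / 60000)
    (hr3 : r ≤ ε / (108000 * C)) (hb : (w : ℝ) ≤ (NR m 0 - ε + ε * κ / 2) * n)
    (hcase : n * ((Nf m ((r / 5 : ℝ))).re - ε * Real.exp (-(r / 5))) ≤ (w : ℝ)) :
    ∃ σ : ℝ, 0 < σ ∧ σ ≤ κ ∧ 0 ≤ (SW (Y3 m n ε) (1 / 1000) σ (w : ℝ)).re := by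
  have hε := hc.c5
  have hC := hc.c1
  have hκ := hc.c2
  have hn' : (0 : ℝ) < n := by exact_mod_cast hn0
  have hV : (0 : ℝ) < 1 / (n * ε) := by positivity
  have hsq : √(1 / (n * ε)) = r := by rw [← hrV, Real.sqrt_sq hr.le]
  have hnr : n * ε * r ^ 2 = 1 := by
    rw [hrV]
    field_simp
  -- the intermediate value theorem
  have hcont : ContinuousOn (fun σ : ℝ => n * ((Nf m σ).re - ε * Real.exp (-σ)))
      (Set.Icc (r / 5) κ) := by
    have h9 : ContinuousOn (fun σ : ℝ => (Nf m σ).re) (Set.Icc (r / 5) κ) :=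
      hc.pb.p10.mono (Set.Icc_subset_Icc (by linarith) (by linarith))
    exact continuousOn_const.mul (h9.sub (by fun_prop))
  have hle : (w : ℝ) ≤ n * ((Nf m (κ : ℝ)).re - ε * Real.exp (-κ)) := by
    have hq8 := (abs_le.mp (hc.pb.p8 κ (by rw [abs_of_pos hκ]))).1
    have h3 : C * κ ^ 2 ≤ ε / 1000 * κ := by
      calc C * κ ^ 2 = C * κ * κ := by ring
        _ ≤ _ := mul_le_mul_of_nonneg_right hc.c4 hκ.le
    have hκ1 := hc.c3
    have h4 : ε * Real.exp (-κ) ≤ ε * (1 - κ + κ / 100) := by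
      apply mul_le_mul_of_nonneg_left _ hε.le
      have h5 := exp_neg_upper hκ.le (by linarith)
      have h6 : κ ^ 2 ≤ 1 / 10000 * κ := by nlinarith
      have h7 : κ ^ 3 ≤ 1 / 10000 * κ := by
        have : κ ^ 3 = κ ^ 2 * κ := by ring
        have h8 : κ ^ 2 * κ ≤ 1 / 10000 * κ * 1 :=
          mul_le_mul h6 (by linarith) hκ.le (by positivity)
        linarith
      linarith
    have h5 : NR m 0 - ε + ε * κ / 2 ≤ (Nf m (κ : ℝ)).re - ε * Real.exp (-κ) := by
      nlinarith [mul_pos hε hκ]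
    have h6 := mul_le_mul_of_nonneg_left h5 hn'.le
    linarith
  obtain ⟨σ, hσ, hσρ⟩ := intermediate_value_Icc (by linarith) hcont ⟨hcase, hle⟩
  have hσpos : 0 < σ := by
    have := hσ.1
    linarith
  have hσabs : |σ| ≤ κ := by
    rw [abs_of_pos hσpos]
    exact hσ.2
  have hy0 : 0 < ‖Y3 m n ε σ‖ := by
    rw [Y3_norm0]
    have hs2 := (Hf_norm (s := (σ : ℂ)) (by
      rw [Complex.norm_real, Real.norm_eq_abs]
      exact (hσabs.trans hc.c3).trans (by norm_num))).1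
    have : 0 < ‖Hf (σ : ℂ)‖ := by linarith
    positivity
  refine ⟨σ, hσpos, hσ.2, ?_⟩
  refine pos_seg' (V := 1 / (n * ε)) (y0 := ‖Y3 m n ε σ‖) hσpos ?_ hV hy0 ?_ ?_ ?_
  · rw [hsq]
    linarith [hσ.1]
  · rw [hsq]
    linarith
  · exact fun t ht => Y3_upper hc n hσabs t ht hn0
  · intro t ht
    rw [hsq] at ht
    have h10 : |t| ^ 3 ≤ (3 * r) ^ 3 := pow_le_pow_left₀ (abs_nonneg _) ht 3
    have hθ1 : n * C * |t| ^ 3 ≤ 3 / 10000 := by
      have h11 : n * C * (3 * r) ^ 3 = 27 * (n * ε * r ^ 2) * (C * r / ε) := by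
        field_simp
        ring
      have h4 : C * r / ε ≤ 1 / 108000 := by
        rw [div_le_iff₀ hε]
        calc C * r ≤ C * (ε / (108000 * C)) := mul_le_mul_of_nonneg_left hr3 hC.le
          _ = 1 / 108000 * ε := by field_simp
      calc n * C * |t| ^ 3 ≤ n * C * (3 * r) ^ 3 :=
            mul_le_mul_of_nonneg_left h10 (by positivity)
        _ = 27 * (n * ε * r ^ 2) * (C * r / ε) := h11
        _ ≤ 27 * 1 * (1 / 108000) := by
            rw [hnr]
            linarith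
        _ ≤ 3 / 10000 := by norm_num
    have hθ2 : n * ε * |t| ^ 3 ≤ 5 / 10000 := by
      have h11 : n * ε * (3 * r) ^ 3 = 27 * (n * ε * r ^ 2) * r := by ring
      calc n * ε * |t| ^ 3 ≤ n * ε * (3 * r) ^ 3 :=
            mul_le_mul_of_nonneg_left h10 (by positivity)
        _ = 27 * (n * ε * r ^ 2) * r := h11
        _ ≤ 27 * 1 * (1 / 60000) := by
            rw [hnr]
            linarith
        _ ≤ 5 / 10000 := by norm_num
    obtain ⟨M, θ, h1, h2, h3⟩ := Y3_phase hc n hσabs t (by linarith) hn0 hθ1 hθ2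
    refine ⟨M, θ, h1, h2, ?_⟩
    rw [h3]
    simp only at hσρ
    rw [hσρ]

/-- the bound far to the right -/
theorem caseR {m C κ ε : ℝ} {n w : ℕ} (hc : Cn m C κ ε) (hn0 : 0 < n) {r : ℝ} (hr : 0 < r)
    (hrV : r ^ 2 = 1 / (n * ε)) (hr1 : r ≤ 1)
    (hb : (NR m 0 - ε + ε * κ / 2) * n < (w : ℝ)) :
    ‖SW (Y3 m n ε) (1 / 1000) (κ / 4) (w : ℝ)‖ ≤
      3 / (κ / 4) * Real.exp (-(n * ε * (κ / 4) ^ 2)) := by
  have hε := hc.c5
  have hC := hc.c1
  have hκ := hc.c2
  have hκ1 := hc.c3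
  have hn' : (0 : ℝ) < n := by exact_mod_cast hn0
  have hV : (0 : ℝ) < 1 / (n * ε) := by positivity
  have hsq : √(1 / (n * ε)) = r := by rw [← hrV, Real.sqrt_sq hr.le]
  obtain ⟨s, hs⟩ : ∃ s : ℝ, s = κ / 4 := ⟨_, rfl⟩
  have hκs : κ = 4 * s := by rw [hs]; ring
  rw [← hs]
  have hs0 : 0 < s := by rw [hs]; positivity
  have hsabs : |s| ≤ κ := by
    rw [abs_of_pos hs0]
    linarith
  have h2 := seg_bound (Y := Y3 m n ε) (c := s) (ρ := (w : ℝ)) (T := 1 / 1000)
    (by norm_num) hs0.ne' hV (norm_nonneg (Y3 m n ε (s : ℝ)))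
    (fun t ht => Y3_upper hc n hsabs t ht hn0)
  rw [abs_of_pos hs0] at h2
  have hq7 := (abs_le.1 (hc.pb.p7 s hsabs).2).2
  rw [abs_of_pos hs0] at hq7
  have he2 := exp_neg_upper (x := s) hs0.le (by linarith)
  have h5 : ‖Y3 m n ε (s : ℝ)‖ * Real.exp (-s * (w : ℝ)) ≤ Real.exp (-(n * ε * s ^ 2)) := by
    rw [Y3_norm0]
    have hH := Hf_real hs0
    calc Real.exp (n * (Ph m (s : ℝ)).re + n * ε * (Real.exp (-s) - 1)) * ‖Hf (s : ℝ)‖ *
          Real.exp (-s * (w : ℝ))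
        ≤ Real.exp (n * (Ph m (s : ℝ)).re + n * ε * (Real.exp (-s) - 1)) * 1 *
          Real.exp (-s * (w : ℝ)) := by gcongr
      _ ≤ Real.exp (-(n * ε * s ^ 2)) := by
          rw [mul_one, ← Real.exp_add, Real.exp_le_exp]
          have h6 : s * ((NR m 0 - ε + ε * κ / 2) * n) ≤ s * (w : ℝ) :=
            mul_le_mul_of_nonneg_left hb.le hs0.le
          have h7 : s ^ 3 ≤ 1 / 10000 * s ^ 2 := by
            have : s ^ 3 = s * s ^ 2 := by ring
            rw [this]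
            exact mul_le_mul_of_nonneg_right (by linarith) (by positivity)
          have h8 : C * s ^ 3 ≤ ε / 1000 * s ^ 2 := by
            have e : C * s ^ 3 = C * s * s ^ 2 := by ring
            rw [e]
            refine mul_le_mul_of_nonneg_right ?_ (by positivity)
            have := hc.c4
            nlinarith
          have h9 : (Ph m (s : ℝ)).re + ε * (Real.exp (-s) - 1) -
              s * (NR m 0 - ε + ε * κ / 2) ≤ -(ε * s ^ 2) := by
            have h10 : ε * (Real.exp (-s) - 1) ≤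
                ε * (-s + s ^ 2 / 2 + 2 / 9 * (1 / 10000 * s ^ 2)) :=
              mul_le_mul_of_nonneg_left (by linarith) hε.le
            have h11 : s * (NR m 0 - ε + ε * κ / 2) = NR m 0 * s - ε * s + 2 * (ε * s ^ 2) := by
              rw [hκs]
              ring
            have h12 : ε * (-s + s ^ 2 / 2 + 2 / 9 * (1 / 10000 * s ^ 2)) =
                -(ε * s) + (1 / 2 + 2 / 90000) * (ε * s ^ 2) := by ring
            have h13 : ε / 1000 * s ^ 2 = 1 / 1000 * (ε * s ^ 2) := by ring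
            have h14 : 0 < ε * s ^ 2 := by positivity
            rw [h11]
            rw [h12] at h10
            rw [h13] at h8
            linarith
          have h15 := mul_le_mul_of_nonneg_left h9 hn'.le
          linarith
  have h7 := num_pi_sqrt hV
  rw [hsq] at h7
  refine h2.trans ?_
  calc 101 / 100 * ‖Y3 m n ε (s : ℝ)‖ * Real.exp (-s * (w : ℝ)) / s *
        √(Real.pi / ((49 / 100) / (1 / (n * ε))))
      = 101 / 100 * (‖Y3 m n ε (s : ℝ)‖ * Real.exp (-s * (w : ℝ))) / s *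
        √(Real.pi / ((49 / 100) / (1 / (n * ε)))) := by ring
    _ ≤ 101 / 100 * Real.exp (-(n * ε * s ^ 2)) / s * (2533 / 1000 * 1) := by
        gcongr
        exact h7.trans (by linarith)
    _ ≤ 3 / s * Real.exp (-(n * ε * s ^ 2)) := by
        have h8 : 0 < Real.exp (-(n * ε * s ^ 2)) / s := by positivity
        have e1 : 101 / 100 * Real.exp (-(n * ε * s ^ 2)) / s * (2533 / 1000 * 1) =
            (101 / 100 * (2533 / 1000)) * (Real.exp (-(n * ε * s ^ 2)) / s) := by ring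
        have e2 : 3 / s * Real.exp (-(n * ε * s ^ 2)) =
            3 * (Real.exp (-(n * ε * s ^ 2)) / s) := by ring
        rw [e1, e2]
        exact mul_le_mul_of_nonneg_right (by norm_num) h8.le

theorem low3 (hb : S3_pb) : S3_low := by
  intro m ε hm hε hε1
  obtain ⟨C, κ0, hC, hκ0, hκ0', hPB⟩ := hb m hm
  obtain ⟨d, hd⟩ : ∃ d : ℝ, d = 1 - Real.cos (1 / 1000) := ⟨_, rfl⟩
  have hdpos : 0 < d := by rw [hd]; exact d_pos
  set κ := min (min κ0 (1 / 10000)) (min (ε / (1000 * C)) (ε * d / (2 * (C + 3)))) with hκ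
  have hκpos : 0 < κ := lt_min (lt_min hκ0 (by norm_num)) (lt_min (by positivity) (by positivity))
  have hκκ : κ ≤ κ0 := (min_le_left _ _).trans (min_le_left _ _)
  have hκ1 : κ ≤ 1 / 10000 := (min_le_left _ _).trans (min_le_right _ _)
  have hκC : C * κ ≤ ε / 1000 := by
    calc C * κ ≤ C * (ε / (1000 * C)) :=
          mul_le_mul_of_nonneg_left ((min_le_right _ _).trans (min_le_left _ _)) hC.le
      _ = ε / 1000 := by field_simp
  have hsm : (C + 3) * κ ≤ ε * (1 - Real.cos (1 / 1000)) / 2 := by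
    have h1 : κ ≤ ε * d / (2 * (C + 3)) := (min_le_right _ _).trans (min_le_right _ _)
    rw [le_div_iff₀ (by positivity)] at h1
    rw [← hd]
    linarith
  have hcn : Cn m C κ ε := ⟨hC, hκpos, hκ1, hκC, hε, hε1, PB_mono hm hκpos hκκ hPB⟩
  set r0 := min κ (min (1 / 60000) (ε / (108000 * C))) with hr0
  have hr0pos : 0 < r0 := lt_min hκpos (lt_min (by norm_num) (by positivity))
  obtain ⟨K, hK⟩ : ∃ K : ℝ, K = 7 / d + 1 + 3 / (κ / 4) := ⟨_, rfl⟩
  have hKpos : 0 < K := by rw [hK]; positivity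
  obtain ⟨e, he⟩ : ∃ e : ℝ, e = min (d / 2) ((κ / 4) ^ 2) := ⟨_, rfl⟩
  have hepos : 0 < e := by rw [he]; exact lt_min (by positivity) (by positivity)
  have hed : e ≤ d / 2 := by rw [he]; exact min_le_left _ _
  have heκ : e ≤ (κ / 4) ^ 2 := by rw [he]; exact min_le_right _ _
  refine ⟨κ, hκpos, ?_⟩
  intro c hc hcκ
  refine ⟨ε * e / 2, by positivity, ⌈1 / (ε * r0 ^ 2)⌉₊ + ⌈40 * K / (ε * e)⌉₊ + 1, ?_⟩
  intro n w hn hw _
  have hn0 : 0 < n := by omega
  have hn' : (0 : ℝ) < n := by exact_mod_cast hn0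
  have hpi : (3.14 : ℝ) < Real.pi := Real.pi_gt_d2
  have hpi0 : 0 < Real.pi := Real.pi_pos
  have hV : (0 : ℝ) < 1 / (n * ε) := by positivity
  set r := √(1 / (n * ε)) with hr
  have hrpos : 0 < r := Real.sqrt_pos.2 hV
  have hrV : r ^ 2 = 1 / (n * ε) := Real.sq_sqrt hV.le
  have hrr : r ≤ r0 := by
    rw [hr, Real.sqrt_le_left hr0pos.le, div_le_iff₀ (by positivity)]
    have h1 : 1 / (ε * r0 ^ 2) ≤ n := by
      refine (Nat.le_ceil _).trans ?_
      exact_mod_cast (show _ ≤ n by omega)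
    rw [div_le_iff₀ (by positivity)] at h1
    linarith
  have hrκ : r ≤ κ := hrr.trans (min_le_left _ _)
  have hr1 : r ≤ 1 / 60000 := hrr.trans ((min_le_right _ _).trans (min_le_left _ _))
  have hr3 : r ≤ ε / (108000 * C) := hrr.trans ((min_le_right _ _).trans (min_le_right _ _))
  -- the error
  obtain ⟨q, hq⟩ : ∃ q : ℝ, q = n * ε * e / 2 := ⟨_, rfl⟩
  have hqK : 20 * K ≤ q := by
    have h1 : 40 * K / (ε * e) ≤ n := by
      refine (Nat.le_ceil _).trans ?_
      exact_mod_cast (show _ ≤ n by omega)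
    rw [div_le_iff₀ (by positivity)] at h1
    rw [hq]
    linarith
  have hexpq : q ≤ Real.exp q := by
    have := Real.add_one_le_exp q
    linarith
  have hE0 := Real.exp_pos (-q)
  have hE1 : K * Real.exp (-q) ≤ 1 / 20 := by
    rw [Real.exp_neg, ← div_eq_mul_inv, div_le_iff₀ (Real.exp_pos _)]
    linarith
  have hE2 : Real.exp (-q) ≤ 1 := by
    rw [Real.exp_le_one_iff]
    have : 0 ≤ 20 * K := by positivity
    linarith
  have hnε : 0 < (n : ℝ) * ε := by positivity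
  have hEd : Real.exp (-(n * ε * d / 2)) ≤ Real.exp (-q) * Real.exp (-q) := by
    rw [← Real.exp_add, Real.exp_le_exp, hq]
    have := mul_le_mul_of_nonneg_left hed hnε.le
    linarith
  have hEκ : Real.exp (-(n * ε * (κ / 4) ^ 2)) ≤ Real.exp (-q) * Real.exp (-q) := by
    rw [← Real.exp_add, Real.exp_le_exp, hq]
    have := mul_le_mul_of_nonneg_left heκ hnε.le
    linarith
  have hE : (7 / d + 1) * Real.exp (-(n * ε * d / 2)) +
      3 / (κ / 4) * Real.exp (-(n * ε * (κ / 4) ^ 2)) ≤ 1 / 20 * Real.exp (-q) := by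
    have h1 : (7 / d + 1) * Real.exp (-(n * ε * d / 2)) ≤
        (7 / d + 1) * (Real.exp (-q) * Real.exp (-q)) :=
      mul_le_mul_of_nonneg_left hEd (by positivity)
    have h2 : 3 / (κ / 4) * Real.exp (-(n * ε * (κ / 4) ^ 2)) ≤
        3 / (κ / 4) * (Real.exp (-q) * Real.exp (-q)) :=
      mul_le_mul_of_nonneg_left hEκ (by positivity)
    have h3 : (7 / d + 1) * (Real.exp (-q) * Real.exp (-q)) +
        3 / (κ / 4) * (Real.exp (-q) * Real.exp (-q)) = K * Real.exp (-q) * Real.exp (-q) := by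
      rw [hK]
      ring
    have h4 : K * Real.exp (-q) * Real.exp (-q) ≤ 1 / 20 * Real.exp (-q) :=
      mul_le_mul_of_nonneg_right hE1 hE0.le
    linarith
  have hEq : Real.exp (-(ε * e / 2) * n) = Real.exp (-q) := by
    congr 1
    rw [hq]
    ring
  obtain ⟨hs1, hs2⟩ := shift (n := n) (w := w) hcn hw hsm
  have hCc : C * c ≤ ε * (1 - Real.cos (1 / 1000)) / 2 := by nlinarith
  have hv := vN_SW' (n := n) (w := w) hcn hc hcκ hCc
  rw [← hd] at hv hs1 hs2
  rw [hEq]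
  refine le_trans ?_ hv
  rw [le_div_iff₀ (by positivity)]
  have hX1 := Real.exp_pos (-(n * ε * d / 2))
  have hX2 : 0 < 3 / (κ / 4) * Real.exp (-(n * ε * (κ / 4) ^ 2)) := by positivity
  -- it is enough to bound the segment
  suffices hS : -(Real.exp (-(n * ε * d / 2)) +
      3 / (κ / 4) * Real.exp (-(n * ε * (κ / 4) ^ 2))) ≤
      (SW (Y3 m n ε) (1 / 1000) c (w : ℝ)).re by
    have h1 : -(Real.exp (-q)) * (2 * Real.pi) ≤ -(1 / 20 * Real.exp (-q)) := by nlinarith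
    have h2 : (7 / d + 1) * Real.exp (-(n * ε * d / 2)) =
        7 / d * Real.exp (-(n * ε * d / 2)) + Real.exp (-(n * ε * d / 2)) := by ring
    rw [h2] at hE
    linarith
  rcases lt_or_ge (w : ℝ) (n * ((Nf m ((r / 5 : ℝ))).re - ε * Real.exp (-(r / 5))))
    with hcase | hcase
  · have h1 := caseL hcn hn0 hrpos hrV hrκ hr1 hr3 hcase
    have h4 := hs2 (-(9 / 10 * r)) c (by linarith) (by linarith) hc hcκ
    have h5 := neg_le_of_abs_le ((Complex.abs_re_le_norm _).trans h4)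
    rw [Complex.sub_re, Complex.sub_re] at h5
    have h6 : (2 * (Real.pi : ℂ)).re = 2 * Real.pi := by
      have : (2 * (Real.pi : ℂ)) = ((2 * Real.pi : ℝ) : ℂ) := by push_cast; rfl
      rw [this, Complex.ofReal_re]
    rw [h6] at h5
    have h7 := neg_le_of_abs_le ((Complex.abs_re_le_norm _).trans h1)
    have h8 : (101 / 100 * (1823 / 1000) * (1003 / 1000) * (2533 / 1000) / (9 / 10) : ℝ) ≤
        2 * 3.14 := by norm_num
    linarith
  · rcases le_or_gt (w : ℝ) ((NR m 0 - ε + ε * κ / 2) * n) with hb1 | hb1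
    · obtain ⟨σ, h1, h2, h3⟩ := caseM hcn hn0 hrpos hrV hrκ hr1 hr3 hb1 hcase
      have h4 := hs1 c σ hc hcκ h1 h2
      have h5 := neg_le_of_abs_le ((Complex.abs_re_le_norm _).trans h4)
      rw [Complex.sub_re] at h5
      linarith
    · have h1 := caseR hcn hn0 hrpos hrV (by linarith) hb1
      have h4 := hs1 c (κ / 4) hc hcκ (by positivity) (by linarith)
      have h5 := neg_le_of_abs_le ((Complex.abs_re_le_norm _).trans h4)
      rw [Complex.sub_re] at h5
      have h7 := neg_le_of_abs_le ((Complex.abs_re_le_norm _).trans h1)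
      linarith

end Pool.Agent.H2xSE.Low3f

namespace Pool.Agent.H2xSE

open Pool.Agent.TH41.BL

/-- piece P1 -/
theorem low3 (hb : S3_pb) : S3_low := Low3f.low3 hb

end Pool.Agent.H2xSE
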